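import Pool.Agent.Q287.Kos.Poly

namespace Pool.Agent.Q287.Kos

open MvPolynomial

variable {σ : Type}

attribute [local instance] MvPolynomial.gradedAlgebra

/-- The quotient map as a `ℚ`-linear map. -/
noncomputable def mkL (J : Ideal (MvPolynomial σ ℚ)) : MvPolynomial σ ℚ →ₗ[ℚ] MvPolynomial σ ℚ ⧸ J :=
  (Ideal.Quotient.mkₐ ℚ J).toLinearMap

@[simp] theorem mkL_apply (J : Ideal (MvPolynomial σ ℚ)) (p : MvPolynomial σ ℚ) :
    mkL J p = Ideal.Quotient.mk J p := rfl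

theorem mkL_surj (J : Ideal (MvPolynomial σ ℚ)) : Function.Surjective (mkL J) :=
  Ideal.Quotient.mk_surjective

/-- The Hilbert function. -/
noncomputable def hilb (J : Ideal (MvPolynomial σ ℚ)) (i : ℕ) : ℕ :=
  Module.finrank ℚ ((homogeneousSubmodule σ ℚ i).map (mkL J))

/-- Multiplication by `x` from `P/C` to `P/J`. -/
noncomputable def mulL (C J : Ideal (MvPolynomial σ ℚ)) (x : MvPolynomial σ ℚ)
    (h : ∀ c ∈ C, x * c ∈ J) : (MvPolynomial σ ℚ ⧸ C) →ₗ[ℚ] MvPolynomial σ ℚ ⧸ J :=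
  (Submodule.mapQ C J (LinearMap.mulLeft (MvPolynomial σ ℚ) x) (fun c hc => h c hc)).restrictScalars ℚ

@[simp] theorem mulL_mk (C J : Ideal (MvPolynomial σ ℚ)) (x : MvPolynomial σ ℚ)
    (h : ∀ c ∈ C, x * c ∈ J) (p : MvPolynomial σ ℚ) :
    mulL C J x h (mkL C p) = mkL J (x * p) := rfl

/-- The projection from `P/J` to `P/J'`. -/
noncomputable def prL (J J' : Ideal (MvPolynomial σ ℚ)) (h : J ≤ J') :
    (MvPolynomial σ ℚ ⧸ J) →ₗ[ℚ] MvPolynomial σ ℚ ⧸ J' :=
  (Submodule.mapQ J J' (LinearMap.id) (fun c hc => h hc)).restrictScalars ℚ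

@[simp] theorem prL_mk (J J' : Ideal (MvPolynomial σ ℚ)) (h : J ≤ J') (p : MvPolynomial σ ℚ) :
    prL J J' h (mkL J p) = mkL J' p := rfl

theorem mkL_eq_zero {J : Ideal (MvPolynomial σ ℚ)} {p : MvPolynomial σ ℚ} :
    mkL J p = 0 ↔ p ∈ J := Ideal.Quotient.eq_zero_iff_mem

theorem prL_surj (J J' : Ideal (MvPolynomial σ ℚ)) (h : J ≤ J') :
    Function.Surjective (prL J J' h) := by
  intro z
  obtain ⟨p, rfl⟩ := mkL_surj J' z
  exact ⟨mkL J p, rfl⟩

/-- The kernel of the projection is the range of the multiplication. -/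
theorem ker_prL {C J J' : Ideal (MvPolynomial σ ℚ)} {x : MvPolynomial σ ℚ}
    (h : ∀ c ∈ C, x * c ∈ J) (hJ : J' = J ⊔ Ideal.span {x}) (hle : J ≤ J') :
    LinearMap.ker (prL J J' hle) = LinearMap.range (mulL C J x h) := by
  ext z
  obtain ⟨p, rfl⟩ := mkL_surj J z
  rw [LinearMap.mem_ker, prL_mk, mkL_eq_zero, hJ, Submodule.mem_sup]
  constructor
  · rintro ⟨j, hj, y, hy, rfl⟩
    obtain ⟨q, rfl⟩ := Ideal.mem_span_singleton.1 hy
    refine ⟨mkL C q, ?_⟩
    rw [mulL_mk, map_add, mkL_eq_zero.2 hj, zero_add]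
  · rintro ⟨w, hw⟩
    obtain ⟨q, rfl⟩ := mkL_surj C w
    rw [mulL_mk] at hw
    have h1 : mkL J (p - x * q) = 0 := by rw [map_sub, hw, sub_self]
    exact ⟨p - x * q, mkL_eq_zero.1 h1, x * q, Ideal.mem_span_singleton.2 ⟨q, rfl⟩, by ring⟩

theorem finite_step {C J J' : Ideal (MvPolynomial σ ℚ)} {x : MvPolynomial σ ℚ}
    (h : ∀ c ∈ C, x * c ∈ J) (hJ : J' = J ⊔ Ideal.span {x})
    [Module.Finite ℚ (MvPolynomial σ ℚ ⧸ C)] [Module.Finite ℚ (MvPolynomial σ ℚ ⧸ J')] :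
    Module.Finite ℚ (MvPolynomial σ ℚ ⧸ J) := by
  have hle : J ≤ J' := hJ ▸ le_sup_left
  have h1 : Module.Finite ℚ (LinearMap.ker (prL J J' hle)) := by
    rw [ker_prL h hJ hle]
    exact Module.Finite.range _
  have h2 : Module.Finite ℚ ((MvPolynomial σ ℚ ⧸ J) ⧸ LinearMap.ker (prL J J' hle)) :=
    Module.Finite.equiv ((prL J J' hle).quotKerEquivOfSurjective (prL_surj J J' hle)).symm
  exact Module.Finite.of_submodule_quotient (LinearMap.ker (prL J J' hle))

theorem finrank_step {C J J' : Ideal (MvPolynomial σ ℚ)} {x : MvPolynomial σ ℚ}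
    (h : ∀ c ∈ C, x * c ∈ J) (hJ : J' = J ⊔ Ideal.span {x})
    [Module.Finite ℚ (MvPolynomial σ ℚ ⧸ C)] [Module.Finite ℚ (MvPolynomial σ ℚ ⧸ J')] :
    Module.finrank ℚ (MvPolynomial σ ℚ ⧸ J) + Module.finrank ℚ (LinearMap.ker (mulL C J x h)) =
      Module.finrank ℚ (MvPolynomial σ ℚ ⧸ J') + Module.finrank ℚ (MvPolynomial σ ℚ ⧸ C) := by
  have hle : J ≤ J' := hJ ▸ le_sup_left
  haveI := finite_step h hJ
  have h1 := LinearMap.finrank_range_add_finrank_ker (prL J J' hle)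
  rw [ker_prL h hJ hle, LinearMap.range_eq_top.2 (prL_surj J J' hle), finrank_top] at h1
  have h2 := LinearMap.finrank_range_add_finrank_ker (mulL C J x h)
  omega

/-- If the dimensions add up, multiplication is injective. -/
theorem colon_of_finrank {C J J' : Ideal (MvPolynomial σ ℚ)} {x : MvPolynomial σ ℚ}
    (h : ∀ c ∈ C, x * c ∈ J) (hJ : J' = J ⊔ Ideal.span {x})
    [Module.Finite ℚ (MvPolynomial σ ℚ ⧸ C)] [Module.Finite ℚ (MvPolynomial σ ℚ ⧸ J')]
    (he : Module.finrank ℚ (MvPolynomial σ ℚ ⧸ J') + Module.finrank ℚ (MvPolynomial σ ℚ ⧸ C) ≤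
      Module.finrank ℚ (MvPolynomial σ ℚ ⧸ J)) (p : MvPolynomial σ ℚ) (hp : x * p ∈ J) :
    p ∈ C := by
  have h1 := finrank_step h hJ
  have h2 : Module.finrank ℚ (LinearMap.ker (mulL C J x h)) = 0 := by omega
  have h3 := Submodule.finrank_eq_zero.1 h2
  have h4 : mkL C p ∈ LinearMap.ker (mulL C J x h) := by
    rw [LinearMap.mem_ker, mulL_mk, mkL_eq_zero]; exact hp
  rw [h3, Submodule.mem_bot, mkL_eq_zero] at h4
  exact h4

instance hom_finite [Finite σ] (i : ℕ) : Module.Finite ℚ (homogeneousSubmodule σ ℚ i) :=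
  Module.Finite.iff_fg.2 (homogeneousSubmodule_fg _ _ i)

theorem hilb_step [Finite σ] {C J J' : Ideal (MvPolynomial σ ℚ)} {x : MvPolynomial σ ℚ}
    (hx : x.IsHomogeneous 1)
    (h : ∀ c ∈ C, x * c ∈ J) (hJ : J' = J ⊔ Ideal.span {x})
    (hom : J.IsHomogeneous (homogeneousSubmodule σ ℚ)) (i : ℕ) :
    hilb J (i + 1) ≤ hilb J' (i + 1) + hilb C i := by
  have hle : J ≤ J' := hJ ▸ le_sup_left
  set U : Submodule ℚ (MvPolynomial σ ℚ ⧸ J) := (homogeneousSubmodule σ ℚ (i + 1)).map (mkL J) with hU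
  have h1 := LinearMap.finrank_range_add_finrank_ker ((prL J J' hle).domRestrict U)
  have h2 : LinearMap.range ((prL J J' hle).domRestrict U) =
      (homogeneousSubmodule σ ℚ (i + 1)).map (mkL J') := by
    ext z
    constructor
    · rintro ⟨⟨w, hw⟩, rfl⟩
      obtain ⟨p, hp, rfl⟩ := hw
      exact ⟨p, hp, rfl⟩
    · rintro ⟨p, hp, rfl⟩
      exact ⟨⟨mkL J p, p, hp, rfl⟩, rfl⟩
  have h3 : Module.finrank ℚ (LinearMap.ker ((prL J J' hle).domRestrict U)) ≤ hilb C i := by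
    have h4 : (LinearMap.ker ((prL J J' hle).domRestrict U)).map U.subtype ≤
        ((homogeneousSubmodule σ ℚ i).map (mkL C)).map (mulL C J x h) := by
      rintro z ⟨⟨w, hw⟩, hk, rfl⟩
      obtain ⟨p, hp, rfl⟩ := hw
      rw [SetLike.mem_coe, LinearMap.mem_ker] at hk
      have hk' : mkL J' p = 0 := hk
      rw [mkL_eq_zero, hJ, Submodule.mem_sup] at hk'
      obtain ⟨j, hj, y, hy, hjy⟩ := hk'
      obtain ⟨q, rfl⟩ := Ideal.mem_span_singleton.1 hy
      have h5 : homogeneousComponent (i + 1) p = p := homogeneousComponent_eq_self hp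
      rw [← hjy, map_add, mul_comm x q, hc_mul_succ q x hx] at h5
      refine ⟨mkL C (homogeneousComponent i q), ⟨_, homogeneousComponent_mem _ _, rfl⟩, ?_⟩
      show mkL J (x * homogeneousComponent i q) = mkL J p
      rw [← sub_eq_zero, ← map_sub, mkL_eq_zero]
      have h6 : x * homogeneousComponent i q - p = - homogeneousComponent (i + 1) j := by
        rw [← hjy, mul_comm x q, ← h5]; ring
      rw [h6]
      exact Ideal.neg_mem_iff _ |>.2 (homogeneousComponent_mem_of_mem hom hj _)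
    have h5 : Module.finrank ℚ (LinearMap.ker ((prL J J' hle).domRestrict U)) =
        Module.finrank ℚ ((LinearMap.ker ((prL J J' hle).domRestrict U)).map U.subtype) :=
      (LinearEquiv.finrank_eq (Submodule.equivMapOfInjective U.subtype U.injective_subtype _))
    rw [h5]
    exact (Submodule.finrank_mono h4).trans (Submodule.finrank_map_le _ _)
  rw [h2] at h1
  unfold hilb at h3 ⊢
  rw [← h1]
  omega

theorem hilb_zero_step [Finite σ] {J J' : Ideal (MvPolynomial σ ℚ)} {x : MvPolynomial σ ℚ}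
    (hx : x.IsHomogeneous 1) (hJ : J' = J ⊔ Ideal.span {x})
    (hom : J.IsHomogeneous (homogeneousSubmodule σ ℚ)) :
    hilb J 0 ≤ hilb J' 0 := by
  have hle : J ≤ J' := hJ ▸ le_sup_left
  set U : Submodule ℚ (MvPolynomial σ ℚ ⧸ J) := (homogeneousSubmodule σ ℚ 0).map (mkL J) with hU
  have h1 := LinearMap.finrank_range_add_finrank_ker ((prL J J' hle).domRestrict U)
  have h2 : LinearMap.range ((prL J J' hle).domRestrict U) =
      (homogeneousSubmodule σ ℚ 0).map (mkL J') := by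
    ext z
    constructor
    · rintro ⟨⟨w, hw⟩, rfl⟩
      obtain ⟨p, hp, rfl⟩ := hw
      exact ⟨p, hp, rfl⟩
    · rintro ⟨p, hp, rfl⟩
      exact ⟨⟨mkL J p, p, hp, rfl⟩, rfl⟩
  have h3 : LinearMap.ker ((prL J J' hle).domRestrict U) = ⊥ := by
    rw [LinearMap.ker_eq_bot']
    rintro ⟨w, hw⟩ hk
    obtain ⟨p, hp, rfl⟩ := hw
    have hk' : mkL J' p = 0 := hk
    rw [mkL_eq_zero, hJ, Submodule.mem_sup] at hk'
    obtain ⟨j, hj, y, hy, hjy⟩ := hk'
    obtain ⟨q, rfl⟩ := Ideal.mem_span_singleton.1 hy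
    have h5 : homogeneousComponent 0 p = p := homogeneousComponent_eq_self hp
    rw [← hjy, map_add, mul_comm x q, hc_mul_lt q x hx Nat.zero_lt_one, add_zero, mul_comm q x, hjy] at h5
    apply Subtype.ext
    show mkL J p = 0
    rw [mkL_eq_zero, ← h5]
    exact homogeneousComponent_mem_of_mem hom hj _
  rw [h2, h3, finrank_bot] at h1
  unfold hilb
  rw [← h1]
  omega

end Pool.Agent.Q287.Kos
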