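import Pool.Agent.Q287.Kos.Low

namespace Pool.Agent.Q287.Kos

open MvPolynomial

attribute [local instance] MvPolynomial.gradedAlgebra

/-- The list property of one ideal. -/
def GoodI {A : Type} [CommRing A] (L : AddSubgroup A) (F : Set (Ideal A)) (I : Ideal A) : Prop :=
  ∃ (s : ℕ) (l : Fin s → A), (∀ i, l i ∈ L) ∧ Ideal.span (Set.range l) = I ∧
    ∀ i, ∃ C ∈ F, ∀ a : A, a * l i ∈ Ideal.span (l '' {i' | i' < i}) ↔ a ∈ C

theorem good_bot {A : Type} [CommRing A] (L : AddSubgroup A) (F : Set (Ideal A)) :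
    GoodI L F ⊥ := by
  refine ⟨0, Fin.elim0, fun i => i.elim0, ?_, fun i => i.elim0⟩
  rw [Set.range_eq_empty, Ideal.span_empty]

theorem good_snoc {A : Type} [CommRing A] {L : AddSubgroup A} {F : Set (Ideal A)}
    {I I' C : Ideal A} {x : A} (hx : x ∈ L) (hI : I = I' ⊔ Ideal.span {x}) (hC : C ∈ F)
    (hcol : ∀ a, a * x ∈ I' ↔ a ∈ C) (h : GoodI L F I') : GoodI L F I := by
  obtain ⟨s, l, h1, h2, h3⟩ := h
  let l' : Fin (s + 1) → A := Fin.snoc (α := fun _ => A) l x
  have hc : ∀ i : Fin s, l' i.castSucc = l i := fun i => Fin.snoc_castSucc (α := fun _ => A) x l i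
  have hl : l' (Fin.last s) = x := Fin.snoc_last (α := fun _ => A) x l
  have him : ∀ i : Fin s, l' '' {i' | i' < i.castSucc} = l '' {i' | i' < i} := by
    intro i
    ext z
    constructor
    · rintro ⟨j, hj, rfl⟩
      obtain ⟨j', rfl⟩ : ∃ j' : Fin s, j = j'.castSucc := by
        have hj' : j < Fin.last s := lt_trans hj (Fin.castSucc_lt_last i)
        exact ⟨j.castPred (ne_of_lt hj'), (Fin.castSucc_castPred _ _).symm⟩
      exact ⟨j', Fin.castSucc_lt_castSucc_iff.1 hj, (hc j').symm⟩
    · rintro ⟨j, hj, rfl⟩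
      exact ⟨j.castSucc, Fin.castSucc_lt_castSucc_iff.2 hj, hc j⟩
  have himl : l' '' {i' | i' < Fin.last s} = Set.range l := by
    ext z
    constructor
    · rintro ⟨j, hj, rfl⟩
      exact ⟨j.castPred (ne_of_lt hj), by rw [← hc, Fin.castSucc_castPred]⟩
    · rintro ⟨j, rfl⟩
      exact ⟨j.castSucc, Fin.castSucc_lt_last j, hc j⟩
  refine ⟨s + 1, l', fun i => ?_, ?_, fun i => ?_⟩
  · induction i using Fin.lastCases with
    | last => rw [hl]; exact hx
    | cast i => rw [hc]; exact h1 i
  · have : Set.range l' = Set.range l ∪ {x} := by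
      ext z
      constructor
      · rintro ⟨j, rfl⟩
        induction j using Fin.lastCases with
        | last => rw [hl]; exact Or.inr rfl
        | cast i => rw [hc]; exact Or.inl ⟨i, rfl⟩
      · rintro (⟨j, rfl⟩ | hz)
        · exact ⟨j.castSucc, hc j⟩
        · rw [Set.mem_singleton_iff] at hz
          exact ⟨Fin.last s, by rw [hl, hz]⟩
    rw [this, Ideal.span_union, h2, hI]
  · induction i using Fin.lastCases with
    | last =>
      refine ⟨C, hC, fun a => ?_⟩
      rw [hl, himl, h2]; exact hcol a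
    | cast i =>
      obtain ⟨C', hC', h'⟩ := h3 i
      refine ⟨C', hC', fun a => ?_⟩
      rw [hc, him]; exact h' a

/-- The number of facets. -/
def tot (w : ℕ) : ℕ :=
  match ub 20 w with
  | none => 0
  | some l => l.sum

theorem tot_spec {w : ℕ} (h : (ub 20 w).isSome = true) :
    Module.Finite ℚ (P18 ⧸ JT w) ∧ Module.finrank ℚ (P18 ⧸ JT w) ≤ tot w := by
  unfold tot
  rcases h1 : ub 20 w with _ | l
  · rw [h1] at h; simp at h
  · have := ub_spec 20 w l h1
    exact ⟨this.1, this.2.1⟩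

/-- The algebra. -/
abbrev D18 := P18 ⧸ JT 262143

/-- The ideals of the filtration. -/
noncomputable def Iw (w : ℕ) : Ideal D18 := (JT w).map (Ideal.Quotient.mk (JT 262143))

/-- The filtration. -/
def FF : Set (Ideal D18) := {I | ∃ w ∈ Dat.famL, I = Iw w}

theorem full_bit : ∀ v : Fin 18, (262143 : ℕ).testBit v.1 = true := by decide

theorem JT_full_le (w : ℕ) : JT 262143 ≤ JT w := by
  apply Ideal.span_mono
  rintro f (hf | ⟨v, hv, rfl⟩)
  · exact Or.inl hf
  · rw [full_bit v] at hv; exact absurd hv (by decide)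

theorem mem_Iw (w : ℕ) (p : P18) : Ideal.Quotient.mk (JT 262143) p ∈ Iw w ↔ p ∈ JT w :=
  Ideal.mem_quotient_iff_mem (JT_full_le w)

/-- The state. -/
def Pw (w : ℕ) : Prop := Module.Finite ℚ (P18 ⧸ JT w) ∧
  tot w ≤ Module.finrank ℚ (P18 ⧸ JT w) ∧
  GoodI (LinOf (Ideal.Quotient.mk (JT 262143))) FF (Iw w)

/-- The check of the rows. -/
def chk : List ℕ → List (ℕ × ℕ × ℕ × ℕ) → Bool
  | _, [] => true
  | known, (W, v, U, S) :: l =>
    decide (v < 18) && U.testBit v && (U &&& del v == W) && (U &&& star v == S) &&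
      Dat.famL.contains S && known.contains U && (ub 20 W).isSome && (ub 20 S).isSome &&
      (tot U == tot W + tot S) && chk (W :: known) l

theorem step_row {W U S : ℕ} {v : Fin 18} (hv : U.testBit v.1 = true)
    (hW : U &&& del v.1 = W) (hS : U &&& star v.1 = S) (hSf : S ∈ Dat.famL)
    (hW1 : (ub 20 W).isSome = true) (hS1 : (ub 20 S).isSome = true)
    (htot : tot U = tot W + tot S) (hU : Pw U) : Pw W := by
  obtain ⟨u1, u2, u3⟩ := hU
  obtain ⟨w1, w2⟩ := tot_spec hW1
  obtain ⟨s1, s2⟩ := tot_spec hS1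
  have hmul := star_mul U v
  rw [hS] at hmul
  have hdel := JT_del U v hv
  rw [hW] at hdel
  have hle : Module.finrank ℚ (P18 ⧸ JT U) ≤
      Module.finrank ℚ (P18 ⧸ JT W) + Module.finrank ℚ (P18 ⧸ JT S) :=
    Nat.le.intro (finrank_step hmul hdel)
  refine ⟨w1, by omega, ?_⟩
  refine good_snoc (I' := Iw U) (C := Iw S) (x := Ideal.Quotient.mk (JT 262143) (X v)) ?_ ?_
    ?_ ?_ u3
  · exact mem_LinOf.2 ⟨X v, isHomogeneous_X _ _, rfl⟩
  · unfold Iw
    rw [hdel, Ideal.map_sup, Ideal.map_span, Set.image_singleton]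
  · exact ⟨S, hSf, rfl⟩
  · intro a
    obtain ⟨p, rfl⟩ := Ideal.Quotient.mk_surjective a
    rw [← map_mul, mem_Iw, mem_Iw]
    constructor
    · intro hp
      refine colon_of_finrank hmul hdel ?_ p (by rwa [mul_comm])
      have h1 : Module.finrank ℚ (P18 ⧸ JT W) + Module.finrank ℚ (P18 ⧸ JT S) ≤
        Module.finrank ℚ (P18 ⧸ JT U) := by omega
      exact h1
    · intro hp
      rw [mul_comm]; exact hmul p hp

theorem chk_spec : ∀ (l : List (ℕ × ℕ × ℕ × ℕ)) (known : List ℕ), chk known l = true →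
    (∀ w ∈ known, Pw w) → ∀ w ∈ l.map Prod.fst ++ known, Pw w
  | [], known, _, hk, w, hw => hk w (by simpa using hw)
  | (W, v, U, S) :: l, known, h, hk, w, hw => by
    unfold chk at h
    simp only [Bool.and_eq_true, decide_eq_true_eq, beq_iff_eq, List.contains_iff_mem] at h
    obtain ⟨⟨⟨⟨⟨⟨⟨⟨⟨h1, h2⟩, h3⟩, h4⟩, h5⟩, h6⟩, h7⟩, h8⟩, h9⟩, h10⟩ := h
    have hPW : Pw W := step_row (v := ⟨v, h1⟩) h2 h3 h4 h5 h7 h8 h9 (hk U h6)
    have := chk_spec l (W :: known) h10 (fun w' hw' => by
      rcases List.mem_cons.1 hw' with h' | h'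
      · rw [h']; exact hPW
      · exact hk w' h')
    apply this
    simp only [List.map_cons, List.cons_append, List.mem_cons, List.mem_append] at hw ⊢
    tauto

theorem chk_rows : chk [262143] Dat.rowsL = true := by decide +kernel

theorem fam_sub : ∀ w ∈ Dat.famL, w ∈ Dat.rowsL.map Prod.fst ++ [262143] := by decide +kernel

theorem full_Pw : Pw 262143 := by
  obtain ⟨h1, h2, h3⟩ := ub_spec 20 _ _ ub_full
  refine ⟨h1, ?_, ?_⟩
  · have : tot 262143 = 161 := by
      unfold tot; rw [ub_full]; rfl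
    rw [this]
    exact low h1
  · have : Iw 262143 = ⊥ := Ideal.map_quotient_self _
    rw [this]
    exact good_bot _ _

theorem filt : Filt (LinOf (Ideal.Quotient.mk (JT 262143))) FF := by
  rintro I ⟨w, hw, rfl⟩
  have h := chk_spec Dat.rowsL [262143] chk_rows (fun w hw => by
    rw [List.mem_singleton] at hw; rw [hw]; exact full_Pw) w (fam_sub w hw)
  exact h.2.2

theorem facet_ideal : JT 197330 = RingHom.ker (constantCoeff : P18 →+* ℚ) := by
  apply le_antisymm
  · apply Ideal.span_le.2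
    intro f hf
    obtain ⟨e, he, hh⟩ := RelW_hom hf
    show constantCoeff f = 0
    rw [constantCoeff_eq]
    exact hh.coeff_eq_zero (by simp; omega)
  · intro p hp
    have h := sub_C_mem (facet_mem (w := 197330) (by decide +kernel)) p
    have h0 : constantCoeff p = 0 := hp
    rwa [h0, map_zero, sub_zero] at h

theorem fin_sum {σ : Type} (J : Ideal (MvPolynomial σ ℚ)) [Module.Finite ℚ (MvPolynomial σ ℚ ⧸ J)] (N : ℕ)
    (hN : ∀ i, N ≤ i → hilb J i = 0) :
    Module.finrank ℚ (MvPolynomial σ ℚ ⧸ J) ≤ ∑ i ∈ Finset.range N, hilb J i := by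
  have h1 : ∀ N : ℕ, Module.finrank ℚ ((Finset.range N).sup
      (fun i => (homogeneousSubmodule σ ℚ i).map (mkL J)) : Submodule ℚ (MvPolynomial σ ℚ ⧸ J)) ≤
      ∑ i ∈ Finset.range N, hilb J i := by
    intro N
    induction N with
    | zero =>
      rw [Finset.range_zero, Finset.sup_empty, finrank_bot]; exact Nat.zero_le _
    | succ N ih =>
      rw [Finset.sum_range_succ, Finset.range_add_one, Finset.sup_insert, sup_comm]
      exact (Submodule.finrank_add_le_finrank_add_finrank _ _).trans (Nat.add_le_add_right ih _)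
  have h2 : ((Finset.range N).sup
      (fun i => (homogeneousSubmodule σ ℚ i).map (mkL J)) : Submodule ℚ (MvPolynomial σ ℚ ⧸ J)) = ⊤ := by
    rw [eq_top_iff]
    rintro z -
    obtain ⟨p, rfl⟩ := mkL_surj J z
    rw [← sum_homogeneousComponent p, map_sum]
    apply Submodule.sum_mem
    intro i _
    have hm : mkL J (homogeneousComponent i p) ∈ (homogeneousSubmodule σ ℚ i).map (mkL J) :=
      ⟨_, homogeneousComponent_mem _ _, rfl⟩
    by_cases hi : i < N
    · exact (Finset.le_sup (f := fun i => (homogeneousSubmodule σ ℚ i).map (mkL J))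
        (Finset.mem_range.2 hi)) hm
    · have h3 : (homogeneousSubmodule σ ℚ i).map (mkL J) = ⊥ :=
        Submodule.finrank_eq_zero.1 (hN i (not_lt.1 hi))
      rw [h3, Submodule.mem_bot] at hm
      rw [hm]; exact Submodule.zero_mem _
  have := h1 N
  rw [h2, finrank_top] at this
  exact this

theorem hilb_full (i : ℕ) : hilb (JT 262143) i = ([1, 11, 39, 59, 39, 11, 1] : List ℕ).getD i 0 := by
  obtain ⟨h1, h2, h3⟩ := ub_spec 20 _ _ ub_full
  have h4 := low h1
  have h7 : ∀ i, 7 ≤ i → ([1, 11, 39, 59, 39, 11, 1] : List ℕ).getD i 0 = 0 := by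
    intro i hi
    rw [List.getD_eq_default]
    simpa using hi
  have h5 := fin_sum (JT 262143) 7 (fun i hi => by
    have := h3 i
    rw [h7 i hi] at this
    omega)
  have h6 := le_trans h4 h5
  simp only [Finset.sum_range_succ, Finset.sum_range_zero, zero_add] at h6
  have a0 := h3 0
  have a1 := h3 1
  have a2 := h3 2
  have a3 := h3 3
  have a4 := h3 4
  have a5 := h3 5
  have a6 := h3 6
  simp only [List.getD_cons_zero, List.getD_cons_succ] at a0 a1 a2 a3 a4 a5 a6
  rcases i with _ | _ | _ | _ | _ | _ | _ | i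
  · simp only [List.getD_cons_zero]; omega
  · simp only [zero_add, Nat.reduceAdd, List.getD_cons_zero, List.getD_cons_succ]; omega
  · simp only [zero_add, Nat.reduceAdd, List.getD_cons_zero, List.getD_cons_succ]; omega
  · simp only [zero_add, Nat.reduceAdd, List.getD_cons_zero, List.getD_cons_succ]; omega
  · simp only [zero_add, Nat.reduceAdd, List.getD_cons_zero, List.getD_cons_succ]; omega
  · simp only [zero_add, Nat.reduceAdd, List.getD_cons_zero, List.getD_cons_succ]; omega
  · simp only [zero_add, Nat.reduceAdd, List.getD_cons_zero, List.getD_cons_succ]; omega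
  · have := h3 (i + 7)
    rw [h7 (i + 7) (by omega)] at this
    rw [h7 _ (by omega)]
    exact Nat.le_zero.1 this

end Pool.Agent.Q287.Kos
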