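import Mathlib

/-! A Koszul filtration gives a linear free resolution (elementary version). -/

namespace Pool.Agent.Q287.Kos

open Finset

variable {A : Type} [CommRing A]

/-- A list of vectors with entries in `L` whose successive colon ideals lie in `F`. -/
structure LinQuot (L : AddSubgroup A) (F : Set (Ideal A)) (k r : ℕ) (n : Fin r → Fin k → A) :
    Prop where
  lin : ∀ j c, n j c ∈ L
  col : ∀ j, ∃ C ∈ F, ∀ a : A, a • n j ∈ Submodule.span A (n '' {i | i < j}) ↔ a ∈ C

/-- Lifting of relations with coefficients in `L`. -/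
def Lifts (L : AddSubgroup A) : Prop :=
  ∀ (k s : ℕ) (g : Fin s → Fin k → A) (T : Set (Fin s)) (z : Fin k → A) (l : A),
    (∀ i c, g i c ∈ L) → (∀ c, z c ∈ L) → l ∈ L → l • z ∈ Submodule.span A (g '' T) →
    ∃ a : Fin s → A, (∀ i, a i ∈ L) ∧ (∀ i, i ∉ T → a i = 0) ∧ l • z = ∑ i, a i • g i

/-- The list form of a Koszul filtration. -/
def Filt (L : AddSubgroup A) (F : Set (Ideal A)) : Prop :=
  ∀ I ∈ F, ∃ (s : ℕ) (l : Fin s → A), (∀ i, l i ∈ L) ∧ Ideal.span (Set.range l) = I ∧
    ∀ i, ∃ C ∈ F, ∀ a : A, a * l i ∈ Ideal.span (l '' {i' | i' < i}) ↔ a ∈ C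

theorem step {L : AddSubgroup A} {F : Set (Ideal A)} (hG : Lifts L) (hF : Filt L F)
    {k r : ℕ} {n : Fin r → Fin k → A} (hn : LinQuot L F k r n) :
    ∃ (r' : ℕ) (n' : Fin r' → Fin r → A), LinQuot L F r r' n' ∧
      ∀ v : Fin r → A, ∑ j, v j • n j = 0 ↔ v ∈ Submodule.span A (Set.range n') := by
  classical
  choose C hCF hC using hn.col
  choose s l hl hspan hcol using fun j => hF (C j) (hCF j)
  have hlC : ∀ j (x : Fin (s j)), l j x ∈ C j := fun j x => by
    rw [← hspan j]; exact Ideal.subset_span ⟨x, rfl⟩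
  have hlift : ∀ j (x : Fin (s j)), ∃ a : Fin r → A, (∀ i, a i ∈ L) ∧
      (∀ i, i ∉ {i | i < j} → a i = 0) ∧ l j x • n j = ∑ i, a i • n i := fun j x =>
    hG k r n {i | i < j} (n j) (l j x) hn.lin (hn.lin j) (hl j x) ((hC j _).2 (hlC j x))
  choose a haL ha0 ha using hlift
  -- the relations
  let κ : (Σₗ j : Fin r, Fin (s j)) → Fin r → A :=
    fun x => Pi.single x.1 (l x.1 x.2) - a x.1 x.2
  have hκker : ∀ x, ∑ i, κ x i • n i = 0 := by
    intro x
    have h1 : ∑ i, κ x i • n i = ∑ i, (Pi.single x.1 (l x.1 x.2) : Fin r → A) i • n i -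
        ∑ i, a x.1 x.2 i • n i := by
      rw [← Finset.sum_sub_distrib]
      exact Finset.sum_congr rfl (fun i _ => by rw [← sub_smul]; rfl)
    rw [h1, ← ha x.1 x.2]
    rw [Finset.sum_eq_single x.1]
    · rw [Pi.single_eq_same]; exact sub_self _
    · intro i _ hi
      rw [Pi.single_eq_of_ne hi, zero_smul]
    · intro h; exact absurd (Finset.mem_univ _) h
  have hκd : ∀ x, κ x x.1 = l x.1 x.2 := by
    intro x
    show (Pi.single x.1 (l x.1 x.2) : Fin r → A) x.1 - a x.1 x.2 x.1 = _
    rw [Pi.single_eq_same, ha0 x.1 x.2 x.1 (fun h : x.1 < x.1 => lt_irrefl _ h), sub_zero]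
  have hκg : ∀ x i, x.1 < i → κ x i = 0 := by
    intro x i hi
    show (Pi.single x.1 (l x.1 x.2) : Fin r → A) i - a x.1 x.2 i = _
    rw [Pi.single_eq_of_ne (ne_of_gt hi), ha0 x.1 x.2 i (fun h : i < x.1 => lt_asymm hi h), sub_zero]
  -- lifting elements of the ideals generated by the first elements
  have hup : ∀ (j : Fin r) (S : Set (Fin (s j))), ∀ b ∈ Ideal.span (l j '' S),
      ∃ w ∈ Submodule.span A (κ '' {y | ∃ y' ∈ S, y = toLex ⟨j, y'⟩}), w j = b ∧
        (∀ i, j < i → w i = 0) ∧ ∑ i, w i • n i = 0 := by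
    intro j S b hb
    induction hb using Submodule.span_induction with
    | mem b hb =>
      obtain ⟨y, hy, rfl⟩ := hb
      exact ⟨κ (toLex ⟨j, y⟩), Submodule.subset_span ⟨_, ⟨y, hy, rfl⟩, rfl⟩, hκd _,
        fun i hi => hκg _ i hi, hκker _⟩
    | zero => exact ⟨0, Submodule.zero_mem _, rfl, fun _ _ => rfl, by simp⟩
    | add b c _ _ ihb ihc =>
      obtain ⟨w, hw, hw1, hw2, hw3⟩ := ihb
      obtain ⟨w', hw', hw1', hw2', hw3'⟩ := ihc
      refine ⟨w + w', Submodule.add_mem _ hw hw', by rw [Pi.add_apply, hw1, hw1'],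
        fun i hi => by rw [Pi.add_apply, hw2 i hi, hw2' i hi, add_zero], ?_⟩
      simp only [Pi.add_apply, add_smul, Finset.sum_add_distrib, hw3, hw3', add_zero]
    | smul c b _ ihb =>
      obtain ⟨w, hw, hw1, hw2, hw3⟩ := ihb
      refine ⟨c • w, Submodule.smul_mem _ _ hw, by rw [Pi.smul_apply, hw1],
        fun i hi => by rw [Pi.smul_apply, hw2 i hi, smul_zero], ?_⟩
      simp only [Pi.smul_apply, smul_assoc, ← Finset.smul_sum, hw3, smul_zero]
  -- the kernel elements with small support
  have hS : ∀ m : ℕ, ∀ v : Fin r → A, ∑ i, v i • n i = 0 → (∀ i : Fin r, m ≤ i.1 → v i = 0) →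
      v ∈ Submodule.span A (κ '' {y | (ofLex y).1.1 < m}) := by
    intro m
    induction m with
    | zero =>
      intro v _ hv
      have : v = 0 := funext (fun i => hv i (Nat.zero_le _))
      rw [this]; exact Submodule.zero_mem _
    | succ m ih =>
      intro v hv0 hv
      by_cases hm : m < r
      · let j : Fin r := ⟨m, hm⟩
        have h1 : v j • n j ∈ Submodule.span A (n '' {i | i < j}) := by
          have h2 : v j • n j = - ∑ i ∈ Finset.univ.erase j, v i • n i := by
            rw [eq_neg_iff_add_eq_zero, Finset.add_sum_erase _ (fun i => v i • n i) (Finset.mem_univ j)]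
            exact hv0
          rw [h2]
          apply Submodule.neg_mem
          apply Submodule.sum_mem
          intro i hi
          rcases lt_trichotomy i j with h | h | h
          · exact Submodule.smul_mem _ _ (Submodule.subset_span ⟨i, h, rfl⟩)
          · exact absurd h (Finset.ne_of_mem_erase hi)
          · rw [hv i (Nat.succ_le_of_lt h), zero_smul]; exact Submodule.zero_mem _
        have h3 : v j ∈ Ideal.span (l j '' Set.univ) := by
          rw [Set.image_univ, hspan j]; exact (hC j _).1 h1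
        obtain ⟨w, hw, hw1, hw2, hw3⟩ := hup j Set.univ _ h3
        have h4 : v - w ∈ Submodule.span A (κ '' {y | (ofLex y).1.1 < m}) := by
          apply ih
          · simp only [Pi.sub_apply, sub_smul, Finset.sum_sub_distrib, hv0, hw3, sub_zero]
          · intro i hi
            rcases Nat.eq_or_lt_of_le hi with h | h
            · have : i = j := Fin.ext h.symm
              rw [this, Pi.sub_apply, hw1, sub_self]
            · rw [Pi.sub_apply, hv i h, hw2 i h, sub_zero]
        have h5 : v = (v - w) + w := by simp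
        rw [h5]
        apply Submodule.add_mem
        · exact Submodule.span_mono (Set.image_mono (fun y hy => Nat.lt_succ_of_lt hy)) h4
        · refine Submodule.span_mono (Set.image_mono ?_) hw
          rintro y ⟨y', _, rfl⟩
          exact Nat.lt_succ_self m
      · have h6 : ∀ i : Fin r, m ≤ i.1 → v i = 0 := fun i hi => absurd (lt_of_le_of_lt hi i.2) hm
        exact Submodule.span_mono (Set.image_mono (fun y hy => Nat.lt_succ_of_lt hy)) (ih v hv0 h6)
  -- reindexing
  let e := monoEquivOfFin (Σₗ j : Fin r, Fin (s j)) rfl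
  have himg : ∀ j', (fun x => κ (e x)) '' {i | i < j'} = κ '' {y | y < e j'} := by
    intro j'
    ext w
    constructor
    · rintro ⟨i, hi, rfl⟩
      exact ⟨e i, (e.lt_iff_lt).2 hi, rfl⟩
    · rintro ⟨y, hy, rfl⟩
      refine ⟨e.symm y, ?_, ?_⟩
      · show e.symm y < j'
        rw [← e.lt_iff_lt, e.apply_symm_apply]; exact hy
      · show κ (e (e.symm y)) = κ y
        rw [e.apply_symm_apply]
  refine ⟨_, fun x => κ (e x), ⟨?_, ?_⟩, ?_⟩
  · intro j' c
    show κ (e j') c ∈ L
    generalize e j' = x
    show (Pi.single x.1 (l x.1 x.2) : Fin r → A) c - a x.1 x.2 c ∈ L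
    apply AddSubgroup.sub_mem _ _ (haL _ _ _)
    by_cases hc : c = x.1
    · subst hc
      rw [Pi.single_eq_same]; exact hl _ _
    · rw [Pi.single_eq_of_ne hc]; exact AddSubgroup.zero_mem _
  · intro j'
    rw [himg]
    show ∃ C ∈ F, ∀ b : A, b • κ (e j') ∈ _ ↔ b ∈ C
    generalize e j' = x
    obtain ⟨D, hD, hDa⟩ := hcol (ofLex x).1 (ofLex x).2
    refine ⟨D, hD, fun b => ?_⟩
    rw [← hDa b]
    constructor
    · intro hb
      -- the coordinate of index `x.1`
      have h1 : ∀ w ∈ Submodule.span A (κ '' {y | y < x}),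
          w (ofLex x).1 ∈ Ideal.span (l (ofLex x).1 '' {i' | i' < (ofLex x).2}) := by
        intro w hw
        induction hw using Submodule.span_induction with
        | mem w hw =>
          obtain ⟨y, hy, rfl⟩ := hw
          change y < x at hy
          rw [Sigma.Lex.lt_def] at hy
          rcases hy with hy | ⟨h, hy⟩
          · rw [hκg y (ofLex x).1 hy]; exact Ideal.zero_mem _
          · obtain ⟨x1, x2⟩ := x
            obtain ⟨y1, y2⟩ := y
            change y1 = x1 at h
            subst h
            have : κ (⟨y1, y2⟩ : Σₗ j : Fin r, Fin (s j)) y1 = l y1 y2 := hκd (⟨y1, y2⟩ : Σₗ j : Fin r, Fin (s j))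
            show κ (⟨y1, y2⟩ : Σₗ j : Fin r, Fin (s j)) y1 ∈ _
            rw [this]
            exact Ideal.subset_span ⟨y2, hy, rfl⟩
        | zero => exact Ideal.zero_mem _
        | add w w' _ _ h h' => exact Ideal.add_mem _ h h'
        | smul c w _ h => exact Ideal.mul_mem_left _ c h
      have h2 := h1 _ hb
      rw [Pi.smul_apply, smul_eq_mul] at h2
      have h3 : κ x (ofLex x).1 = l (ofLex x).1 (ofLex x).2 := hκd x
      rw [h3] at h2
      exact h2
    · intro hb
      obtain ⟨w, hw, hw1, hw2, hw3⟩ := hup _ _ _ hb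
      have h4 : b • κ x - w ∈ Submodule.span A (κ '' {y | (ofLex y).1.1 < (ofLex x).1.1}) := by
        apply hS
        · simp only [Pi.sub_apply, sub_smul, Finset.sum_sub_distrib, hw3, sub_zero, Pi.smul_apply,
            smul_assoc, ← Finset.smul_sum, hκker x, smul_zero]
        · intro i hi
          rcases Nat.eq_or_lt_of_le hi with h | h
          · have : i = (ofLex x).1 := Fin.ext h.symm
            rw [this, Pi.sub_apply, hw1, Pi.smul_apply, smul_eq_mul]
            have h3 : κ x (ofLex x).1 = l (ofLex x).1 (ofLex x).2 := hκd x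
            rw [h3, sub_self]
          · rw [Pi.sub_apply, hw2 i h, Pi.smul_apply, hκg x i h, smul_zero, sub_zero]
      have h5 : b • κ x = (b • κ x - w) + w := by simp
      rw [h5]
      apply Submodule.add_mem
      · refine Submodule.span_mono (Set.image_mono ?_) h4
        intro y hy
        show y < x
        rw [Sigma.Lex.lt_def]
        exact Or.inl hy
      · refine Submodule.span_mono (Set.image_mono ?_) hw
        rintro y ⟨y', hy', rfl⟩
        show toLex (⟨(ofLex x).1, y'⟩ : Σ j : Fin r, Fin (s j)) < x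
        rw [Sigma.Lex.lt_def]
        exact Or.inr ⟨rfl, hy'⟩
  · intro v
    have hr : Set.range (fun x => κ (e x)) = κ '' Set.univ := by
      rw [Set.image_univ]
      ext w
      constructor
      · rintro ⟨x, rfl⟩; exact ⟨e x, rfl⟩
      · rintro ⟨y, rfl⟩; exact ⟨e.symm y, by show κ (e (e.symm y)) = κ y; rw [e.apply_symm_apply]⟩
    rw [hr]
    constructor
    · intro hv
      refine Submodule.span_mono (Set.image_mono (Set.subset_univ _))
        (hS r v hv (fun i hi => absurd i.2 (not_lt.2 hi)))
    · intro hv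
      induction hv using Submodule.span_induction with
      | mem v hv =>
        obtain ⟨y, _, rfl⟩ := hv
        exact hκker y
      | zero => simp
      | add v w _ _ h h' => simp only [Pi.add_apply, add_smul, Finset.sum_add_distrib, h, h', add_zero]
      | smul c v _ h => simp only [Pi.smul_apply, smul_assoc, ← Finset.smul_sum, h, smul_zero]

end Pool.Agent.Q287.Kos
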