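import Pool.Agent.Q287.Kos.Points
import Pool.Agent.Q287.Kos.Dat

namespace Pool.Agent.Q287.Kos

open MvPolynomial

attribute [local instance] MvPolynomial.gradedAlgebra

/-- The polynomial ring. -/
abbrev P18 := MvPolynomial (Fin 18) ℚ

/-- Mask of a member. -/
def sm (v : Fin 18) : ℕ := Dat.smL.getD v.1 0
/-- Mask of the vertices compatible with `v`. -/
def star (v : ℕ) : ℕ := Dat.starL.getD v 0
/-- Mask of the members containing `a`. -/
def mm (a : ℕ) : ℕ := Dat.mmL.getD a 0
/-- Mask of all vertices but `v`. -/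
def del (v : ℕ) : ℕ := 262143 ^^^ 2 ^ v
/-- Membership. -/
def mb (v : Fin 18) (a : Fin 7) : Bool := (sm v).testBit a.1
/-- Compatibility. -/
def adj (u v : Fin 18) : Bool := (star u.1).testBit v.1

theorem del_testBit : ∀ u v : Fin 18, (del v.1).testBit u.1 = !(decide (u = v)) := by decide

theorem star_symm : ∀ u v : Fin 18, adj u v = adj v u := by decide

theorem mm_testBit : ∀ (v : Fin 18) (a : Fin 7), (mm a.1).testBit v.1 = mb v a := by decide

/-- The linear relations. -/
noncomputable def theta (a : Fin 7) : P18 := ∑ v : Fin 18, if mb v a = true then X v else 0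

/-- The relations. -/
def Rel : Set P18 := {f | ∃ u v : Fin 18, adj u v = false ∧ f = X u * X v} ∪ {f | ∃ a, f = theta a}

/-- The relations together with the variables outside of `w`. -/
def RelW (w : ℕ) : Set P18 := Rel ∪ {f | ∃ v : Fin 18, w.testBit v.1 = false ∧ f = X v}

/-- The ideal of relations together with the variables outside of `w`. -/
noncomputable def JT (w : ℕ) : Ideal P18 := Ideal.span (RelW w)

theorem theta_hom (a : Fin 7) : (theta a).IsHomogeneous 1 := by
  unfold theta
  apply IsHomogeneous.sum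
  intro v _
  by_cases h : mb v a = true
  · rw [if_pos h]; exact isHomogeneous_X _ _
  · rw [if_neg h]; exact isHomogeneous_zero _ _ _

theorem RelW_hom {w : ℕ} {f : P18} (hf : f ∈ RelW w) : ∃ e, 1 ≤ e ∧ f.IsHomogeneous e := by
  rcases hf with (⟨u, v, _, rfl⟩ | ⟨a, rfl⟩) | ⟨v, _, rfl⟩
  · exact ⟨2, by norm_num, (isHomogeneous_X _ u).mul (isHomogeneous_X _ v)⟩
  · exact ⟨1, le_rfl, theta_hom a⟩
  · exact ⟨1, le_rfl, isHomogeneous_X _ v⟩

theorem JT_hom (w : ℕ) : (JT w).IsHomogeneous (homogeneousSubmodule (Fin 18) ℚ) := by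
  apply Ideal.homogeneous_span
  intro f hf
  obtain ⟨e, _, he⟩ := RelW_hom hf
  exact ⟨e, he⟩

theorem theta_mem (w : ℕ) (a : Fin 7) : theta a ∈ JT w :=
  Ideal.subset_span (Or.inl (Or.inr ⟨a, rfl⟩))

theorem X_mem {w : ℕ} {v : Fin 18} (h : w.testBit v.1 = false) : (X v : P18) ∈ JT w :=
  Ideal.subset_span (Or.inr ⟨v, h, rfl⟩)

theorem XX_mem (w : ℕ) {u v : Fin 18} (h : adj u v = false) : (X u * X v : P18) ∈ JT w :=
  Ideal.subset_span (Or.inl (Or.inl ⟨u, v, h, rfl⟩))

theorem JT_del (w : ℕ) (v : Fin 18) (h : w.testBit v.1 = true) :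
    JT (w &&& del v.1) = JT w ⊔ Ideal.span {(X v : P18)} := by
  apply le_antisymm
  · apply Ideal.span_le.2
    rintro f ((⟨u, u', hu, rfl⟩ | ⟨a, rfl⟩) | ⟨u, hu, rfl⟩)
    · exact Ideal.mem_sup_left (XX_mem w hu)
    · exact Ideal.mem_sup_left (theta_mem w a)
    · rw [Nat.testBit_and, del_testBit] at hu
      by_cases huv : u = v
      · subst huv
        exact Ideal.mem_sup_right (Ideal.subset_span rfl)
      · rw [decide_eq_false huv, Bool.not_false, Bool.and_true] at hu
        exact Ideal.mem_sup_left (X_mem hu)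
  · apply sup_le
    · apply Ideal.span_mono
      rintro f (hf | ⟨u, hu, rfl⟩)
      · exact Or.inl hf
      · exact Or.inr ⟨u, by rw [Nat.testBit_and, hu, Bool.false_and], rfl⟩
    · rw [Ideal.span_singleton_le_iff_mem]
      apply X_mem
      rw [Nat.testBit_and, del_testBit, decide_eq_true rfl, Bool.not_true, Bool.and_false]

theorem star_mul (w : ℕ) (v : Fin 18) : ∀ c ∈ JT (w &&& star v.1), (X v : P18) * c ∈ JT w := by
  intro c hc
  unfold JT at hc
  induction hc using Submodule.span_induction with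
  | mem f hf =>
    rcases hf with (⟨u, u', hu, rfl⟩ | ⟨a, rfl⟩) | ⟨u, hu, rfl⟩
    · exact Ideal.mul_mem_left _ _ (XX_mem w hu)
    · exact Ideal.mul_mem_left _ _ (theta_mem w a)
    · rw [Nat.testBit_and] at hu
      rcases Bool.and_eq_false_iff.1 hu with h | h
      · exact Ideal.mul_mem_left _ _ (X_mem h)
      · exact XX_mem w h
  | zero => rw [mul_zero]; exact Ideal.zero_mem _
  | add a b _ _ ha hb => rw [mul_add]; exact Ideal.add_mem _ ha hb
  | smul a b _ h => rw [smul_eq_mul, mul_left_comm]; exact Ideal.mul_mem_left _ _ h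

/-- The check for facets. -/
def facetOK (w : ℕ) : Bool :=
  (List.finRange 18).all fun v => !w.testBit v.1 ||
    ((List.finRange 7).any fun a => (w &&& mm a.1) == 2 ^ v.1) ||
    ((List.finRange 7).any fun a => (List.finRange 7).any fun b =>
      (w &&& mm a.1) == ((w &&& mm b.1) ||| 2 ^ v.1) && !(mm b.1).testBit v.1)

/-- The part of `theta` inside `w`. -/
noncomputable def thW (w : ℕ) (a : Fin 7) : P18 :=
  ∑ v : Fin 18, if (w &&& mm a.1).testBit v.1 = true then X v else 0

theorem thW_mem (w : ℕ) (a : Fin 7) : thW w a ∈ JT w := by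
  have h : thW w a = theta a - ∑ v : Fin 18, (if (w.testBit v.1 = false ∧ mb v a = true) then X v else 0) := by
    unfold thW theta
    rw [← Finset.sum_sub_distrib]
    apply Finset.sum_congr rfl
    intro v _
    rw [Nat.testBit_and, mm_testBit]
    cases h1 : w.testBit v.1 <;> cases h2 : mb v a <;> simp
  rw [h]
  apply Ideal.sub_mem _ (theta_mem w a)
  apply Ideal.sum_mem
  intro v _
  by_cases h1 : w.testBit v.1 = false ∧ mb v a = true
  · rw [if_pos h1]; exact X_mem h1.1
  · rw [if_neg h1]; exact Ideal.zero_mem _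

theorem facet_mem {w : ℕ} (h : facetOK w = true) (v : Fin 18) : (X v : P18) ∈ JT w := by
  by_cases hv : w.testBit v.1 = false
  · exact X_mem hv
  · unfold facetOK at h
    rw [List.all_eq_true] at h
    have h1 := h v (List.mem_finRange v)
    rw [Bool.or_eq_true, Bool.or_eq_true] at h1
    rcases h1 with (h1 | h1) | h1
    · rw [Bool.not_eq_true'] at h1; exact absurd h1 hv
    · rw [List.any_eq_true] at h1
      obtain ⟨a, _, ha⟩ := h1
      rw [beq_iff_eq] at ha
      have h2 : thW w a = X v := by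
        unfold thW
        rw [ha, Finset.sum_eq_single v]
        · rw [if_pos]; rw [Nat.testBit_two_pow]; simp
        · intro u _ hu
          rw [if_neg]
          rw [Nat.testBit_two_pow]
          simp only [decide_eq_true_eq]
          intro h'; exact hu (Fin.ext h'.symm)
        · intro h'; exact absurd (Finset.mem_univ _) h'
      rw [← h2]; exact thW_mem w a
    · rw [List.any_eq_true] at h1
      obtain ⟨a, _, ha⟩ := h1
      rw [List.any_eq_true] at ha
      obtain ⟨b, _, hb⟩ := ha
      rw [Bool.and_eq_true, beq_iff_eq, Bool.not_eq_true'] at hb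
      obtain ⟨h2, h3⟩ := hb
      have h4 : thW w a = thW w b + X v := by
        unfold thW
        rw [h2]
        have h5 : (X v : P18) = ∑ u : Fin 18, if u = v then X u else 0 := by
          rw [Finset.sum_ite_eq' Finset.univ v]
          simp
        rw [h5, ← Finset.sum_add_distrib]
        apply Finset.sum_congr rfl
        intro u _
        rw [Nat.testBit_or, Nat.testBit_two_pow]
        by_cases huv : u = v
        · subst huv
          rw [Nat.testBit_and, h3]
          simp
        · rw [if_neg huv, add_zero]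
          have : decide (v.1 = u.1) = false := decide_eq_false (fun h' => huv (Fin.ext h'.symm))
          rw [this, Bool.or_false]
      have h5 : (X v : P18) = thW w a - thW w b := by rw [h4]; ring
      rw [h5]
      exact Ideal.sub_mem _ (thW_mem w a) (thW_mem w b)

theorem sub_C_mem {σ : Type} {J : Ideal (MvPolynomial σ ℚ)} (hJ : ∀ v, X v ∈ J) (p : MvPolynomial σ ℚ) :
    p - C (constantCoeff p) ∈ J := by
  induction p using MvPolynomial.induction_on with
  | C a => rw [constantCoeff_C, sub_self]; exact Ideal.zero_mem _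
  | add p q hp hq =>
    rw [map_add, map_add]
    have : p + q - (C (constantCoeff p) + C (constantCoeff q)) =
      (p - C (constantCoeff p)) + (q - C (constantCoeff q)) := by ring
    rw [this]; exact Ideal.add_mem _ hp hq
  | mul_X p v _ =>
    rw [map_mul, constantCoeff_X, mul_zero, map_zero, sub_zero]
    exact Ideal.mul_mem_left _ _ (hJ v)

theorem base_surj {σ : Type} {J : Ideal (MvPolynomial σ ℚ)} (hJ : ∀ v, X v ∈ J)
    (z : MvPolynomial σ ℚ ⧸ J) : ∃ c : ℚ, c • (mkL J 1) = z := by
  obtain ⟨p, rfl⟩ := mkL_surj J z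
  refine ⟨constantCoeff p, ?_⟩
  rw [← map_smul, ← sub_eq_zero, ← map_sub, mkL_eq_zero]
  have h := Ideal.neg_mem_iff _ |>.2 (sub_C_mem hJ p)
  rw [neg_sub] at h
  rwa [MvPolynomial.smul_eq_C_mul, mul_one]

theorem base_finite {σ : Type} {J : Ideal (MvPolynomial σ ℚ)} (hJ : ∀ v, X v ∈ J) :
    Module.Finite ℚ (MvPolynomial σ ℚ ⧸ J) :=
  Module.Finite.of_surjective (LinearMap.toSpanSingleton ℚ (MvPolynomial σ ℚ ⧸ J) (mkL J 1))
    (fun z => base_surj hJ z)

theorem base_finrank {σ : Type} {J : Ideal (MvPolynomial σ ℚ)} (hJ : ∀ v, X v ∈ J) :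
    Module.finrank ℚ (MvPolynomial σ ℚ ⧸ J) ≤ 1 :=
  finrank_le_one (mkL J 1) (fun z => base_surj hJ z)

theorem base_hilb {σ : Type} {J : Ideal (MvPolynomial σ ℚ)} (hJ : ∀ v, X v ∈ J) (i : ℕ) :
    hilb J (i + 1) = 0 := by
  have h : (homogeneousSubmodule σ ℚ (i + 1)).map (mkL J) = ⊥ := by
    rw [eq_bot_iff]
    rintro z ⟨p, hp, rfl⟩
    rw [Submodule.mem_bot, mkL_eq_zero]
    have h1 := sub_C_mem hJ p
    have h2 : constantCoeff p = 0 := by
      rw [constantCoeff_eq]
      exact hp.coeff_eq_zero (by simp)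
    rwa [h2, map_zero, sub_zero] at h1
  unfold hilb
  rw [h, finrank_bot]

theorem base_hilb_zero {σ : Type} {J : Ideal (MvPolynomial σ ℚ)} (hJ : ∀ v, X v ∈ J) :
    hilb J 0 ≤ 1 := by
  haveI := base_finite hJ
  exact (Submodule.finrank_le _).trans (base_finrank hJ)

end Pool.Agent.Q287.Kos
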