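import Pool.Agent.Q287.Kos.Ub

namespace Pool.Agent.Q287.Kos

open MvPolynomial

attribute [local instance] MvPolynomial.gradedAlgebra

/-- The check for one point. -/
def rowOK (r : List ℕ) : Bool :=
  r.length == 18 &&
  ((List.finRange 18).all fun u => (List.finRange 18).all fun v =>
    adj u v || r.getD u.1 0 == 10 || r.getD v.1 0 == 10) &&
  ((List.finRange 7).all fun a =>
    ((List.finRange 18).map (fun v => if mb v a = true then r.getD v.1 0 else 0)).sum ==
      a.1 + 1 + ((List.finRange 18).map (fun v => if mb v a = true then 10 else 0)).sum)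

/-- The check for all points. -/
def rowsOK : List (List ℕ) → Bool
  | [] => true
  | r :: l => rowOK r && rowsOK l

theorem rowsOK_spec : ∀ (l : List (List ℕ)), rowsOK l = true → ∀ r ∈ l, rowOK r = true
  | [], _, r, hr => absurd hr (by simp)
  | r0 :: l, h, r, hr => by
    unfold rowsOK at h
    rw [Bool.and_eq_true] at h
    rcases List.mem_cons.1 hr with h' | h'
    · rw [h']; exact h.1
    · exact rowsOK_spec l h.2 r h'

theorem pts_ok : rowsOK Dat.ptsL = true := by decide +kernel

theorem pts_nodup : Dat.ptsL.Nodup := by decide +kernel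

theorem pts_len : Dat.ptsL.length = 161 := by decide +kernel

/-- The points. -/
def pt (k : Fin 161) (v : Fin 18) : ℚ := ((Dat.ptsL.getD k.1 []).getD v.1 0 : ℚ) - 10

theorem row_mem (k : Fin 161) : Dat.ptsL.getD k.1 [] ∈ Dat.ptsL := by
  have h : k.1 < Dat.ptsL.length := by rw [pts_len]; exact k.2
  rw [List.getD_eq_getElem _ _ h]
  exact List.getElem_mem h

theorem row_ok (k : Fin 161) : rowOK (Dat.ptsL.getD k.1 []) = true :=
  rowsOK_spec _ pts_ok _ (row_mem k)

theorem row_len (k : Fin 161) : (Dat.ptsL.getD k.1 []).length = 18 := by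
  have h := row_ok k
  unfold rowOK at h
  rw [Bool.and_eq_true, Bool.and_eq_true, beq_iff_eq] at h
  exact h.1.1

theorem row_adj (k : Fin 161) (u v : Fin 18) (huv : adj u v = false) : pt k u * pt k v = 0 := by
  have h := row_ok k
  unfold rowOK at h
  rw [Bool.and_eq_true, Bool.and_eq_true, List.all_eq_true] at h
  have h1 := h.1.2 u (List.mem_finRange u)
  rw [List.all_eq_true] at h1
  have h2 := h1 v (List.mem_finRange v)
  rw [huv, Bool.false_or, Bool.or_eq_true, beq_iff_eq, beq_iff_eq] at h2
  unfold pt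
  rcases h2 with h2 | h2
  · rw [h2]; norm_num
  · rw [h2]; norm_num

theorem row_theta (k : Fin 161) (a : Fin 7) :
    ∑ v : Fin 18, (if mb v a = true then pt k v else 0) = (a.1 : ℚ) + 1 := by
  have h := row_ok k
  unfold rowOK at h
  rw [Bool.and_eq_true, List.all_eq_true] at h
  have h1 := h.2 a (List.mem_finRange a)
  rw [beq_iff_eq, ← Fin.sum_univ_def, ← Fin.sum_univ_def] at h1
  have h2 : ((∑ v : Fin 18, (if mb v a = true then (Dat.ptsL.getD k.1 []).getD v.1 0 else 0) : ℕ) : ℚ) =
      (a.1 : ℚ) + 1 + ((∑ v : Fin 18, (if mb v a = true then 10 else 0) : ℕ) : ℚ) := by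
    rw [h1]; push_cast; ring
  rw [Nat.cast_sum, Nat.cast_sum] at h2
  rw [← sub_eq_iff_eq_add, ← Finset.sum_sub_distrib] at h2
  rw [← h2]
  apply Finset.sum_congr rfl
  intro v _
  unfold pt
  by_cases hv : mb v a = true
  · rw [if_pos hv, if_pos hv, if_pos hv]; norm_num
  · rw [if_neg hv, if_neg hv, if_neg hv]; norm_num

theorem pt_inj : Function.Injective pt := by
  intro k l h
  have hk : k.1 < Dat.ptsL.length := by rw [pts_len]; exact k.2
  have hl : l.1 < Dat.ptsL.length := by rw [pts_len]; exact l.2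
  have h1 : Dat.ptsL[k.1] = Dat.ptsL[l.1] := by
    have e1 := List.getD_eq_getElem Dat.ptsL [] hk
    have e2 := List.getD_eq_getElem Dat.ptsL [] hl
    rw [← e1, ← e2]
    apply List.ext_getElem
    · rw [row_len k, row_len l]
    · intro i hi1 hi2
      have hi : i < 18 := by rw [row_len k] at hi1; exact hi1
      have h3 := congrFun h ⟨i, hi⟩
      unfold pt at h3
      rw [sub_left_inj, Nat.cast_inj, List.getD_eq_getElem _ _ hi1, List.getD_eq_getElem _ _ hi2] at h3
      exact h3
  exact Fin.ext ((List.Nodup.getElem_inj_iff pts_nodup).1 h1)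

theorem low (hfin : Module.Finite ℚ (P18 ⧸ JT 262143)) :
    161 ≤ Module.finrank ℚ (P18 ⧸ JT 262143) := by
  haveI : Module.Finite ℚ (P18 ⧸ Ideal.span (RelW 262143)) := hfin
  have h := points_le pt pt_inj (RelW 262143) ?_
  · rwa [Fintype.card_fin] at h
  · rintro f ((⟨u, v, huv, rfl⟩ | ⟨a, rfl⟩) | ⟨v, hv, rfl⟩)
    · exact ⟨2, by norm_num, (isHomogeneous_X _ u).mul (isHomogeneous_X _ v), 0, fun k => by
        rw [map_mul, aeval_X, aeval_X]; exact row_adj k u v huv⟩
    · refine ⟨1, le_rfl, theta_hom a, (a.1 : ℚ) + 1, fun k => ?_⟩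
      rw [← row_theta k a]
      unfold theta
      rw [map_sum]
      apply Finset.sum_congr rfl
      intro v _
      by_cases hv : mb v a = true
      · rw [if_pos hv, if_pos hv, aeval_X]
      · rw [if_neg hv, if_neg hv, map_zero]
    · exfalso
      have : ∀ v : Fin 18, (262143 : ℕ).testBit v.1 = true := by decide
      rw [this v] at hv
      exact absurd hv (by decide)

end Pool.Agent.Q287.Kos
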