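import Pool.Agent.Q287.Kos.Fam

namespace Pool.Agent.Q287.Kos

/-- Vertices that are compatible and incomparable. -/
def ci (v : Fin 18) : ℕ :=
  ([9848, 9852, 9850, 1511, 3559, 7071, 23455, 1656, 9848, 487, 6559, 1136, 1120, 263, 64, 0, 0, 0] :
    List ℕ).getD v.1 0

theorem ci_spec : ∀ u v : Fin 18, u ≠ v → adj u v = true → (∃ a, mb u a = true ∧ mb v a = false) →
    (∃ a, mb v a = true ∧ mb u a = false) → (ci u).testBit v.1 = true := by decide +kernel

/-- The exhaustive check that no antichain of pairwise compatible members has its union in the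
building set. -/
def chkN : List (Fin 18) → ℕ → ℕ → ℕ → Bool
  | [], cur, _, cnt => decide (cnt < 2) ||
      ((List.finRange 18).all fun k => (List.finRange 7).any fun a => cur.testBit a.1 != mb k a)
  | v :: l, cur, al, cnt => chkN l cur al cnt &&
      (!al.testBit v.1 || chkN l (cur ||| sm v) (al &&& ci v) (cnt + 1))

theorem chkN_spec (T : Finset (Fin 18)) (hT : ∀ u ∈ T, ∀ v ∈ T, u ≠ v → (ci u).testBit v.1 = true) :
    ∀ (l : List (Fin 18)) (cur al cnt : ℕ), chkN l cur al cnt = true → l.Nodup →
      (∀ v ∈ l, v ∈ T → al.testBit v.1 = true) → 2 ≤ cnt + (l.filter (· ∈ T)).length →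
      ∀ k : Fin 18, ∃ a : Fin 7,
        (cur.testBit a.1 || (l.any fun v => decide (v ∈ T) && mb v a)) ≠ mb k a
  | [], cur, al, cnt, h, _, _, hc, k => by
    unfold chkN at h
    rw [Bool.or_eq_true, decide_eq_true_eq] at h
    rw [List.filter_nil, List.length_nil, add_zero] at hc
    rcases h with h | h
    · omega
    · rw [List.all_eq_true] at h
      have h1 := h k (List.mem_finRange k)
      rw [List.any_eq_true] at h1
      obtain ⟨a, _, ha⟩ := h1
      refine ⟨a, ?_⟩
      rw [List.any_nil, Bool.or_false]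
      simpa using ha
  | v :: l, cur, al, cnt, h, hnd, hal, hc, k => by
    unfold chkN at h
    rw [Bool.and_eq_true, Bool.or_eq_true] at h
    obtain ⟨hv, hl⟩ := List.nodup_cons.1 hnd
    by_cases hvT : v ∈ T
    · have h1 := hal v (List.mem_cons_self) hvT
      have h2 : chkN l (cur ||| sm v) (al &&& ci v) (cnt + 1) = true := by
        rcases h.2 with h2 | h2
        · rw [h1] at h2; exact absurd h2 (by decide)
        · exact h2
      have h3 := chkN_spec T hT l (cur ||| sm v) (al &&& ci v) (cnt + 1) h2 hl (fun u hu huT => by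
        rw [Nat.testBit_and, hal u (List.mem_cons_of_mem _ hu) huT, Bool.true_and]
        exact hT v hvT u huT (fun h' => hv (h' ▸ hu))) (by
        rw [List.filter_cons_of_pos (by simpa using hvT), List.length_cons] at hc
        omega) k
      obtain ⟨a, ha⟩ := h3
      refine ⟨a, ?_⟩
      rw [Nat.testBit_or] at ha
      rw [List.any_cons, decide_eq_true hvT, Bool.true_and, ← Bool.or_assoc]
      exact ha
    · have h3 := chkN_spec T hT l cur al cnt h.1 hl (fun u hu huT =>
        hal u (List.mem_cons_of_mem _ hu) huT) (by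
        rw [List.filter_cons_of_neg (by simpa using hvT)] at hc
        exact hc) k
      obtain ⟨a, ha⟩ := h3
      refine ⟨a, ?_⟩
      rw [List.any_cons, decide_eq_false hvT, Bool.false_and, Bool.false_or]
      exact ha

theorem chkN_full : chkN (List.finRange 18) 0 262143 0 = true := by decide +kernel

/-- No antichain of at least two pairwise compatible members has its union in the family. -/
theorem flag (T : Finset (Fin 18)) (hT : ∀ u ∈ T, ∀ v ∈ T, u ≠ v → adj u v = true)
    (hT' : ∀ u ∈ T, ∀ v ∈ T, u ≠ v → ∃ a, mb u a = true ∧ mb v a = false) (hc : 2 ≤ T.card)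
    (k : Fin 18) : ∃ a : Fin 7, ¬ ((∃ v ∈ T, mb v a = true) ↔ mb k a = true) := by
  have h := chkN_spec T (fun u hu v hv huv => ci_spec u v huv (hT u hu v hv huv)
    (hT' u hu v hv huv) (hT' v hv u hu huv.symm)) (List.finRange 18) 0 262143 0 chkN_full
    (List.nodup_finRange 18) (fun v _ _ => full_bit v) (by
      rw [zero_add]
      refine hc.trans ?_
      have : T ⊆ ((List.finRange 18).filter (· ∈ T)).toFinset := by
        intro v hv
        rw [List.mem_toFinset, List.mem_filter]
        exact ⟨List.mem_finRange v, by simpa using hv⟩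
      exact (Finset.card_le_card this).trans (List.toFinset_card_le _)) k
  obtain ⟨a, ha⟩ := h
  refine ⟨a, fun h' => ha ?_⟩
  rw [Nat.zero_testBit, Bool.false_or, Bool.eq_iff_iff, ← h', List.any_eq_true]
  constructor
  · rintro ⟨v, _, hv⟩
    rw [Bool.and_eq_true, decide_eq_true_eq] at hv
    exact ⟨v, hv⟩
  · rintro ⟨v, hv⟩
    exact ⟨v, List.mem_finRange v, by rw [Bool.and_eq_true, decide_eq_true_eq]; exact hv⟩

/-- Incompatible pairs. -/
theorem not_adj : ∀ u v : Fin 18, adj u v = false → u ≠ v ∧ (∃ a, mb u a = true ∧ mb v a = false) ∧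
    (∃ a, mb v a = true ∧ mb u a = false) ∧ ∃ k, ∀ a, mb k a = (mb u a || mb v a) := by
  decide +kernel

/-- Unions of intersecting members. -/
theorem union_mem : ∀ u v : Fin 18, (∃ a, mb u a = true ∧ mb v a = true) →
    ∃ k, ∀ a, mb k a = (mb u a || mb v a) := by decide +kernel

/-- The singletons. -/
theorem single_mem : ∀ a : Fin 7, ∃ k : Fin 18, ∀ b, mb k b = decide (b = a) := by decide +kernel

theorem mb_inj : ∀ u v : Fin 18, (∀ a, mb u a = mb v a) → u = v := by decide +kernel

theorem mb_nonempty : ∀ u : Fin 18, ∃ a, mb u a = true := by decide +kernel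

end Pool.Agent.Q287.Kos
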