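import Pool.Agent.Q287.Kos.Dim

namespace Pool.Agent.Q287.Kos

open MvPolynomial

variable {σ : Type}

attribute [local instance] MvPolynomial.gradedAlgebra

theorem span_monomials : Submodule.span ℚ (Set.range (fun t : σ →₀ ℕ => monomial t (1 : ℚ))) = ⊤ := by
  have h := (basisMonomials σ ℚ).span_eq
  rwa [coe_basisMonomials] at h

/-- The evaluation at several points. -/
noncomputable def evL {ι : Type} (pt : ι → σ → ℚ) : MvPolynomial σ ℚ →ₗ[ℚ] (ι → ℚ) :=
  LinearMap.pi (fun k => (aeval (pt k) : MvPolynomial σ ℚ →ₐ[ℚ] ℚ).toLinearMap)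

@[simp] theorem evL_apply {ι : Type} (pt : ι → σ → ℚ) (p : MvPolynomial σ ℚ) (k : ι) :
    evL pt p k = aeval (pt k) p := rfl

theorem evL_surj {ι : Type} [Fintype ι] (pt : ι → σ → ℚ) (hpt : Function.Injective pt) :
    Function.Surjective (evL pt) := by
  classical
  have h1 : ∀ k l : ι, ∃ q : MvPolynomial σ ℚ, aeval (pt k) q = (1 : ℚ) ∧
      (l ≠ k → aeval (pt l) q = (0 : ℚ)) := by
    intro k l
    by_cases h : l = k
    · exact ⟨1, by simp, fun h' => absurd h h'⟩
    · have h2 : ∃ v, pt k v ≠ pt l v := by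
        by_contra hc
        push Not at hc
        exact h (hpt (funext (fun v => (hc v).symm)))
      obtain ⟨v, hv⟩ := h2
      refine ⟨C (pt k v - pt l v)⁻¹ * (X v - C (pt l v)), ?_, fun _ => ?_⟩
      · rw [map_mul, map_sub, aeval_X, aeval_C, aeval_C]
        show (pt k v - pt l v)⁻¹ * (pt k v - pt l v) = 1
        exact inv_mul_cancel₀ (sub_ne_zero.2 hv)
      · rw [map_mul, map_sub, aeval_X, aeval_C, aeval_C]
        show (pt k v - pt l v)⁻¹ * (pt l v - pt l v) = 0
        rw [sub_self, mul_zero]
  choose q hq1 hq2 using h1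
  intro y
  refine ⟨∑ k, y k • ∏ l, q k l, ?_⟩
  funext j
  rw [evL_apply, map_sum, Finset.sum_eq_single j]
  · rw [map_smul, map_prod, Finset.prod_eq_one (fun l _ => hq1 j l), smul_eq_mul, mul_one]
  · intro k _ hk
    rw [map_smul, map_prod, Finset.prod_eq_zero (Finset.mem_univ j) (hq2 k j (Ne.symm hk)), smul_zero]
  · intro h; exact absurd (Finset.mem_univ _) h

theorem points_le {ι : Type} [Fintype ι] (pt : ι → σ → ℚ) (hpt : Function.Injective pt)
    (R : Set (MvPolynomial σ ℚ))
    (hR : ∀ f ∈ R, ∃ e, 1 ≤ e ∧ f.IsHomogeneous e ∧ ∃ c : ℚ, ∀ k, aeval (pt k) f = c)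
    [Module.Finite ℚ (MvPolynomial σ ℚ ⧸ Ideal.span R)] :
    Fintype.card ι ≤ Module.finrank ℚ (MvPolynomial σ ℚ ⧸ Ideal.span R) := by
  classical
  -- a basis of the quotient made of monomials
  obtain ⟨b, hb1, hb2, hb3⟩ := exists_linearIndependent ℚ
    (Set.range (fun t : σ →₀ ℕ => mkL (Ideal.span R) (monomial t (1 : ℚ))))
  have hb4 : Submodule.span ℚ b = ⊤ := by
    rw [hb2]
    have : Set.range (fun t : σ →₀ ℕ => mkL (Ideal.span R) (monomial t (1 : ℚ))) =
        mkL (Ideal.span R) '' Set.range (fun t : σ →₀ ℕ => monomial t (1 : ℚ)) := by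
      ext z
      constructor
      · rintro ⟨t, rfl⟩; exact ⟨_, ⟨t, rfl⟩, rfl⟩
      · rintro ⟨_, ⟨t, rfl⟩, rfl⟩; exact ⟨t, rfl⟩
    rw [this, ← Submodule.map_span, span_monomials, Submodule.map_top, LinearMap.range_eq_top]
    exact mkL_surj _
  haveI hbf : Finite b := hb3.finite
  haveI : Fintype b := Fintype.ofFinite b
  have hbc : Fintype.card b ≤ Module.finrank ℚ (MvPolynomial σ ℚ ⧸ Ideal.span R) :=
    hb3.fintype_card_le_finrank
  choose t ht using fun x : b => hb1 x.2
  let Bs : Submodule ℚ (MvPolynomial σ ℚ) :=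
    Submodule.span ℚ (Set.range (fun x : b => monomial (t x) (1 : ℚ)))
  have hBs1 : Module.finrank ℚ Bs ≤ Fintype.card b := finrank_range_le_card _
  haveI : Module.Finite ℚ Bs := Module.Finite.span_of_finite ℚ (Set.finite_range _)
  have hBs2 : ∀ p : MvPolynomial σ ℚ, ∃ q ∈ Bs, p - q ∈ Ideal.span R := by
    intro p
    have h1 : mkL (Ideal.span R) p ∈ Submodule.span ℚ b := by rw [hb4]; trivial
    have h2 : b = mkL (Ideal.span R) '' Set.range (fun x : b => monomial (t x) (1 : ℚ)) := by
      ext z
      constructor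
      · intro hz; exact ⟨_, ⟨⟨z, hz⟩, rfl⟩, ht ⟨z, hz⟩⟩
      · rintro ⟨_, ⟨x, rfl⟩, rfl⟩
        have := ht x
        simp only at this ⊢
        rw [this]; exact x.2
    rw [h2, ← Submodule.map_span] at h1
    obtain ⟨q, hq, hq2⟩ := h1
    refine ⟨q, hq, ?_⟩
    rw [← mkL_eq_zero, map_sub, hq2, sub_self]
  have hBs3 : ∀ q ∈ Bs, ∀ d, homogeneousComponent d q ∈ Bs := by
    intro q hq d
    induction hq using Submodule.span_induction with
    | mem q hq =>
      obtain ⟨x, rfl⟩ := hq
      simp only
      by_cases h : (t x).degree = d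
      · rw [homogeneousComponent_eq_self (isHomogeneous_monomial _ h)]
        exact Submodule.subset_span ⟨x, rfl⟩
      · rw [homogeneousComponent_of_mem (isHomogeneous_monomial _ rfl :
          monomial (t x) (1 : ℚ) ∈ homogeneousSubmodule σ ℚ (t x).degree), if_neg (fun h' => h h'.symm)]
        exact Submodule.zero_mem _
    | zero => rw [map_zero]; exact Submodule.zero_mem _
    | add p q _ _ h h' => rw [map_add]; exact Submodule.add_mem _ h h'
    | smul c p _ h => rw [map_smul]; exact Submodule.smul_mem _ _ h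
  have key : ∀ d, ∀ p : MvPolynomial σ ℚ, p.IsHomogeneous d → evL pt p ∈ Bs.map (evL pt) := by
    intro d
    induction d using Nat.strong_induction_on with
    | _ d ih =>
      intro p hp
      have h1 : ∀ q ∈ Ideal.span R, ∀ c : MvPolynomial σ ℚ,
          evL pt (homogeneousComponent d (c * q)) ∈ Bs.map (evL pt) := by
        intro q hq
        induction hq using Submodule.span_induction with
        | mem f hf =>
          intro c
          obtain ⟨e, he1, he2, a, ha⟩ := hR f hf
          by_cases hed : e ≤ d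
          · rw [hc_mul c f he2 hed]
            have h2 : evL pt (homogeneousComponent (d - e) c * f) =
                a • evL pt (homogeneousComponent (d - e) c) := by
              funext k
              rw [evL_apply, map_mul, ha k, Pi.smul_apply, evL_apply, smul_eq_mul, mul_comm]
            rw [h2]
            exact Submodule.smul_mem _ _ (ih (d - e) (by omega) _
              (homogeneousComponent_isHomogeneous _ _))
          · rw [hc_mul_lt c f he2 (not_le.1 hed), map_zero]
            exact Submodule.zero_mem _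
        | zero => intro c; rw [mul_zero, map_zero, map_zero]; exact Submodule.zero_mem _
        | add p q _ _ h h' =>
          intro c
          rw [mul_add, map_add, map_add]
          exact Submodule.add_mem _ (h c) (h' c)
        | smul c' q _ h =>
          intro c
          rw [smul_eq_mul, ← mul_assoc]
          exact h (c * c')
      obtain ⟨q, hq, hpq⟩ := hBs2 p
      have h2 := h1 _ hpq 1
      rw [one_mul, map_sub, map_sub, homogeneousComponent_eq_self hp] at h2
      have h3 : evL pt (homogeneousComponent d q) ∈ Bs.map (evL pt) := ⟨_, hBs3 q hq d, rfl⟩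
      have h4 := Submodule.add_mem _ h2 h3
      rwa [sub_add_cancel] at h4
  have htop : Bs.map (evL pt) = ⊤ := by
    rw [eq_top_iff]
    rintro y -
    obtain ⟨p, rfl⟩ := evL_surj pt hpt y
    rw [← sum_homogeneousComponent p, map_sum]
    exact Submodule.sum_mem _ (fun d _ => key d _ (homogeneousComponent_isHomogeneous _ _))
  have h1 : Fintype.card ι = Module.finrank ℚ (Bs.map (evL pt)) := by
    rw [htop, finrank_top, Module.finrank_fintype_fun_eq_card]
  rw [h1]
  exact (Submodule.finrank_map_le _ _).trans (hBs1.trans hbc)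

end Pool.Agent.Q287.Kos
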