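import Pool.Agent.Q287.Kos.Res

namespace Pool.Agent.Q287.Kos

open MvPolynomial

theorem span_image_coeff {A : Type} [CommRing A] {k s : ℕ} (g : Fin s → Fin k → A)
    (T : Set (Fin s)) (w : Fin k → A) (hw : w ∈ Submodule.span A (g '' T)) :
    ∃ a : Fin s → A, (∀ i, i ∉ T → a i = 0) ∧ w = ∑ i, a i • g i := by
  classical
  induction hw using Submodule.span_induction with
  | mem w hw =>
    obtain ⟨i, hi, rfl⟩ := hw
    refine ⟨Pi.single i 1, fun j hj => Pi.single_eq_of_ne
      (fun (h : j = i) => hj (by rw [h]; exact hi)) _, ?_⟩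
    rw [Finset.sum_eq_single i]
    · rw [Pi.single_eq_same, one_smul]
    · intro j _ hj
      rw [Pi.single_eq_of_ne hj, zero_smul]
    · intro h; exact absurd (Finset.mem_univ _) h
  | zero => exact ⟨0, fun _ _ => rfl, by simp⟩
  | add w w' _ _ h h' =>
    obtain ⟨a, ha, rfl⟩ := h
    obtain ⟨b, hb, rfl⟩ := h'
    refine ⟨a + b, fun i hi => by rw [Pi.add_apply, ha i hi, hb i hi, add_zero], ?_⟩
    simp only [Pi.add_apply, add_smul, Finset.sum_add_distrib]
  | smul c w _ h =>
    obtain ⟨a, ha, rfl⟩ := h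
    refine ⟨c • a, fun i hi => by rw [Pi.smul_apply, ha i hi, smul_zero], ?_⟩
    simp only [Pi.smul_apply, smul_assoc, Finset.smul_sum]

theorem smul_eq_iff {A : Type} [CommRing A] {k s : ℕ} (g : Fin s → Fin k → A) (a : Fin s → A)
    (z : Fin k → A) (l : A) : l • z = ∑ i, a i • g i ↔ ∀ c, l * z c = ∑ i, a i * g i c := by
  constructor
  · intro h c
    have := congrFun h c
    rw [Pi.smul_apply, Finset.sum_apply, smul_eq_mul] at this
    exact this
  · intro h
    funext c
    rw [Pi.smul_apply, Finset.sum_apply, smul_eq_mul]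
    exact h c

variable {σ : Type}

attribute [local instance] MvPolynomial.gradedAlgebra

theorem hc_mul {n m : ℕ} (p q : MvPolynomial σ ℚ) (hq : q.IsHomogeneous m) (h : m ≤ n) :
    homogeneousComponent n (p * q) = homogeneousComponent (n - m) p * q := by
  have h1 := DirectSum.coe_decompose_mul_of_right_mem_of_le (homogeneousSubmodule σ ℚ)
    (a := p) (b := q) (i := m) (n := n) hq h
  have h2 : ∀ (r : MvPolynomial σ ℚ) k,
      ((DirectSum.decompose (homogeneousSubmodule σ ℚ) r) k : MvPolynomial σ ℚ) =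
        homogeneousComponent k r := fun r k => decomposition.decompose'_apply r k
  rw [h2, h2] at h1
  exact h1

theorem hc_mul_succ {n : ℕ} (p q : MvPolynomial σ ℚ) (hq : q.IsHomogeneous 1) :
    homogeneousComponent (n + 1) (p * q) = homogeneousComponent n p * q := by
  have h := hc_mul (n := n + 1) (m := 1) p q hq (Nat.le_add_left 1 n)
  rwa [Nat.add_sub_cancel] at h

theorem hc_mul_lt {n m : ℕ} (p q : MvPolynomial σ ℚ) (hq : q.IsHomogeneous m) (h : n < m) :
    homogeneousComponent n (p * q) = 0 := by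
  have h1 := DirectSum.coe_decompose_mul_of_right_mem_of_not_le (homogeneousSubmodule σ ℚ)
    (a := p) (b := q) (i := m) (n := n) hq (not_le.2 h)
  have h2 : ∀ (r : MvPolynomial σ ℚ) k,
      ((DirectSum.decompose (homogeneousSubmodule σ ℚ) r) k : MvPolynomial σ ℚ) =
        homogeneousComponent k r := fun r k => decomposition.decompose'_apply r k
  rw [h2] at h1
  exact h1

/-- The images of the linear forms. -/
noncomputable def LinOf {A : Type} [CommRing A] (φ : MvPolynomial σ ℚ →+* A) : AddSubgroup A :=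
  AddSubgroup.map (φ : MvPolynomial σ ℚ →+ A) (homogeneousSubmodule σ ℚ 1).toAddSubgroup

theorem mem_LinOf {A : Type} [CommRing A] {φ : MvPolynomial σ ℚ →+* A} {a : A} :
    a ∈ LinOf φ ↔ ∃ p : MvPolynomial σ ℚ, p.IsHomogeneous 1 ∧ φ p = a := Iff.rfl

theorem lifts {A : Type} [CommRing A] (φ : MvPolynomial σ ℚ →+* A)
    (hs : Function.Surjective φ)
    (hI : ∀ p, φ p = 0 → ∀ n, φ (homogeneousComponent n p) = 0) :
    Lifts (LinOf φ) := by
  classical
  intro k s g T z l hg hz hl hmem
  choose q hq1 hq2 using fun i c => mem_LinOf.1 (hg i c)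
  choose zt hz1 hz2 using fun c => mem_LinOf.1 (hz c)
  obtain ⟨lt, hl1, hl2⟩ := mem_LinOf.1 hl
  obtain ⟨a, ha0, ha⟩ := span_image_coeff g T _ hmem
  rw [smul_eq_iff] at ha
  choose p0 hp0 using fun i => hs (a i)
  let p : Fin s → MvPolynomial σ ℚ := fun i => if i ∈ T then p0 i else 0
  have hp : ∀ i, φ (p i) = a i := by
    intro i
    show φ (if i ∈ T then p0 i else 0) = a i
    by_cases hi : i ∈ T
    · rw [if_pos hi]; exact hp0 i
    · rw [if_neg hi, ha0 i hi, map_zero]
  refine ⟨fun i => φ (homogeneousComponent 1 (p i)), fun i =>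
    mem_LinOf.2 ⟨_, homogeneousComponent_isHomogeneous _ _, rfl⟩, fun i hi => ?_, ?_⟩
  · show φ (homogeneousComponent 1 (if i ∈ T then p0 i else 0)) = 0
    rw [if_neg hi, map_zero, map_zero]
  · rw [smul_eq_iff]
    intro c
    have h2 : φ (lt * zt c - ∑ i, p i * q i c) = 0 := by
      rw [map_sub, map_mul, map_sum, hl2, hz2 c, sub_eq_zero, ha c]
      apply Finset.sum_congr rfl
      intro i _
      rw [map_mul, hp i, hq2 i c]
    have h3 := hI _ h2 2
    rw [map_sub, map_sum, homogeneousComponent_eq_self (hl1.mul (hz1 c))] at h3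
    have h4 : ∑ i, homogeneousComponent 2 (p i * q i c) =
        ∑ i, homogeneousComponent 1 (p i) * q i c :=
      Finset.sum_congr rfl (fun i _ => hc_mul_succ (n := 1) _ _ (hq1 i c))
    rw [h4, map_sub, map_mul, map_sum, hl2, hz2 c, sub_eq_zero] at h3
    rw [h3]
    apply Finset.sum_congr rfl
    intro i _
    rw [map_mul, hq2 i c]

end Pool.Agent.Q287.Kos
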