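import Pool.Agent.Q287.Kos.Filt

namespace Pool.Agent.Q287.Kos

open Finset

variable {A : Type} [CommRing A]

/-- A stage of the resolution. -/
structure Stage (L : AddSubgroup A) (F : Set (Ideal A)) where
  k : ℕ
  r : ℕ
  n : Fin r → Fin k → A
  h : LinQuot L F k r n

noncomputable def Stage.next {L : AddSubgroup A} {F : Set (Ideal A)} (hG : Lifts L)
    (hF : Filt L F) (s : Stage L F) : Stage L F :=
  ⟨s.r, (step hG hF s.h).choose, (step hG hF s.h).choose_spec.choose,
    (step hG hF s.h).choose_spec.choose_spec.1⟩

theorem Stage.next_spec {L : AddSubgroup A} {F : Set (Ideal A)} (hG : Lifts L)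
    (hF : Filt L F) (s : Stage L F) (v : Fin s.r → A) :
    ∑ j, v j • s.n j = 0 ↔ v ∈ Submodule.span A (Set.range (s.next hG hF).n) :=
  (step hG hF s.h).choose_spec.choose_spec.2 v

theorem resolution {L : AddSubgroup A} {F : Set (Ideal A)} (hG : Lifts L) (hF : Filt L F)
    {I : Ideal A} (hI : I ∈ F) :
    ∃ (b : ℕ → ℕ) (M : ∀ i : ℕ, Matrix (Fin (b i)) (Fin (b (i + 1))) A),
      b 0 = 1 ∧ (∀ i r c, M i r c ∈ L) ∧
      (∀ u : Fin (b 0) → A, (∃ w, (M 0).mulVec w = u) ↔ ∀ r, u r ∈ I) ∧
      ∀ (i : ℕ) (v : Fin (b (i + 1)) → A),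
        (M i).mulVec v = 0 ↔ ∃ w, (M (i + 1)).mulVec w = v := by
  classical
  obtain ⟨s, l, hl, hspan, hcol⟩ := hF I hI
  have h0 : LinQuot L F 1 s (fun j _ => l j) := by
    refine ⟨fun j _ => hl j, fun j => ?_⟩
    obtain ⟨C, hC, h⟩ := hcol j
    refine ⟨C, hC, fun a => ?_⟩
    rw [← h a]
    have key : ∀ b : A, (fun _ : Fin 1 => b) ∈
        Submodule.span A ((fun j (_ : Fin 1) => l j) '' {i | i < j}) ↔
        b ∈ Ideal.span (l '' {i | i < j}) := by
      intro b
      constructor
      · intro hb
        have : ∀ w ∈ Submodule.span A ((fun j (_ : Fin 1) => l j) '' {i | i < j}),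
            w 0 ∈ Ideal.span (l '' {i | i < j}) := by
          intro w hw
          induction hw using Submodule.span_induction with
          | mem w hw => obtain ⟨i, hi, rfl⟩ := hw; exact Ideal.subset_span ⟨i, hi, rfl⟩
          | zero => exact Ideal.zero_mem _
          | add w w' _ _ h h' => exact Ideal.add_mem _ h h'
          | smul c w _ h => exact Ideal.mul_mem_left _ c h
        exact this _ hb
      · intro hb
        induction hb using Submodule.span_induction with
        | mem b hb => obtain ⟨i, hi, rfl⟩ := hb; exact Submodule.subset_span ⟨i, hi, rfl⟩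
        | zero => exact Submodule.zero_mem _
        | add b c _ _ h h' => exact Submodule.add_mem _ h h'
        | smul c b _ h => exact Submodule.smul_mem _ c h
    exact key (a * l j)
  let seq : ℕ → Stage L F := fun i => Nat.rec ⟨1, s, fun j _ => l j, h0⟩ (fun _ t => t.next hG hF) i
  have hmv : ∀ i (w : Fin (seq i).r → A),
      Matrix.mulVec (fun c j => (seq i).n j c) w = ∑ j, w j • (seq i).n j := by
    intro i w
    funext c
    rw [Finset.sum_apply]
    show ∑ j, (seq i).n j c * w j = _
    exact Finset.sum_congr rfl (fun j _ => mul_comm _ _)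
  have hrange : ∀ i (u : Fin (seq i).k → A),
      (∃ w, Matrix.mulVec (fun c j => (seq i).n j c) w = u) ↔
        u ∈ Submodule.span A (Set.range (seq i).n) := by
    intro i u
    rw [Submodule.mem_span_range_iff_exists_fun]
    constructor
    · rintro ⟨w, hw⟩
      exact ⟨w, by rw [← hmv i w]; exact hw⟩
    · rintro ⟨w, hw⟩
      exact ⟨w, by rw [hmv i w]; exact hw⟩
  refine ⟨fun i => (seq i).k, fun i c j => (seq i).n j c, rfl, fun i r c => (seq i).h.lin c r,
    ?_, ?_⟩
  · intro u
    refine (hrange 0 u).trans ?_
    constructor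
    · intro hu r
      rw [← hspan]
      have : ∀ w ∈ Submodule.span A (Set.range (seq 0).n), ∀ r, w r ∈ Ideal.span (Set.range l) := by
        intro w hw
        induction hw using Submodule.span_induction with
        | mem w hw => obtain ⟨i, rfl⟩ := hw; exact fun r => Ideal.subset_span ⟨i, rfl⟩
        | zero => exact fun r => Ideal.zero_mem _
        | add w w' _ _ h h' => exact fun r => Ideal.add_mem _ (h r) (h' r)
        | smul c w _ h => exact fun r => Ideal.mul_mem_left _ c (h r)
      exact this u hu r
    · intro hu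
      have h1 : ∀ b ∈ Ideal.span (Set.range l), (fun _ : Fin 1 => b) ∈
          Submodule.span A (Set.range (fun j (_ : Fin 1) => l j)) := by
        intro b hb
        induction hb using Submodule.span_induction with
        | mem b hb => obtain ⟨i, rfl⟩ := hb; exact Submodule.subset_span ⟨i, rfl⟩
        | zero => exact Submodule.zero_mem _
        | add b c _ _ h h' => exact Submodule.add_mem _ h h'
        | smul c b _ h => exact Submodule.smul_mem _ c h
      have h2 := h1 (u 0) (by rw [hspan]; exact hu 0)
      have h3 : (fun _ : Fin 1 => u 0) = u := by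
        funext r
        rw [Subsingleton.elim r (0 : Fin 1)]
      rw [h3] at h2
      exact h2
  · intro i v
    have h1 := Stage.next_spec hG hF (seq i) v
    rw [← hmv i v] at h1
    exact h1.trans (hrange (i + 1) v).symm

end Pool.Agent.Q287.Kos
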