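import Mathlib

/-! The polynomial `1 + 11x + 39x² + 59x³ + 39x⁴ + 11x⁵ + x⁶` has a non-real zero. -/

namespace Pool.Agent.Q287.Kos

theorem cubic_root : ∃ r : ℝ, r ^ 3 + 11 * r ^ 2 + 36 * r + 37 = 0 := by
  have hc : ContinuousOn (fun r : ℝ => r ^ 3 + 11 * r ^ 2 + 36 * r + 37) (Set.Icc (-7) 0) := by
    fun_prop
  have h := intermediate_value_Icc (by norm_num : (-7 : ℝ) ≤ 0) hc
  have h0 : (0 : ℝ) ∈ Set.Icc ((fun r : ℝ => r ^ 3 + 11 * r ^ 2 + 36 * r + 37) (-7))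
      ((fun r : ℝ => r ^ 3 + 11 * r ^ 2 + 36 * r + 37) 0) := by
    constructor <;> norm_num
  obtain ⟨r, _, hr⟩ := h h0
  exact ⟨r, hr⟩

theorem cubic_nonreal : ∃ s : ℂ, s ^ 3 + 11 * s ^ 2 + 36 * s + 37 = 0 ∧ s.im ≠ 0 := by
  obtain ⟨r, hr⟩ := cubic_root
  have hd : (-23 - 22 * r - 3 * r ^ 2) * (3 * r ^ 2 + 22 * r + 36) ^ 2 = -23 := by
    linear_combination (-27 * r ^ 3 - 297 * r ^ 2 - 972 * r - 805) * hr
  have hneg : -23 - 22 * r - 3 * r ^ 2 < 0 := by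
    by_contra h
    have h1 := mul_nonneg (not_lt.1 h) (sq_nonneg (3 * r ^ 2 + 22 * r + 36))
    rw [hd] at h1
    norm_num at h1
  set y : ℝ := Real.sqrt (23 + 22 * r + 3 * r ^ 2) with hy
  have hy2 : y ^ 2 = 23 + 22 * r + 3 * r ^ 2 := Real.sq_sqrt (by linarith)
  have hy0 : 0 < y := Real.sqrt_pos.2 (by linarith)
  refine ⟨⟨-(11 + r) / 2, y / 2⟩, ?_, ?_⟩
  · have hs : (⟨-(11 + r) / 2, y / 2⟩ : ℂ) = -(11 + r) / 2 + y / 2 * Complex.I := by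
      apply Complex.ext <;> simp
    rw [hs]
    have hyc : (y : ℂ) ^ 2 = 23 + 22 * r + 3 * r ^ 2 := by exact_mod_cast hy2
    have hrc : (r : ℂ) ^ 3 + 11 * r ^ 2 + 36 * r + 37 = 0 := by exact_mod_cast hr
    have hI : Complex.I ^ 2 = -1 := Complex.I_sq
    have hq : (-(11 + (r : ℂ)) / 2 + y / 2 * Complex.I) ^ 2 +
        (11 + r) * (-(11 + (r : ℂ)) / 2 + y / 2 * Complex.I) + (36 + 11 * r + r ^ 2) = 0 := by
      linear_combination (y : ℂ) ^ 2 / 4 * hI - 1 / 4 * hyc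
    linear_combination ((-(11 + (r : ℂ)) / 2 + y / 2 * Complex.I) - r) * hq + hrc
  · show y / 2 ≠ 0
    positivity

theorem sextic_nonreal : ∃ z : ℂ, z ^ 6 + 11 * z ^ 5 + 39 * z ^ 4 + 59 * z ^ 3 + 39 * z ^ 2 +
    11 * z + 1 = 0 ∧ z.im ≠ 0 := by
  obtain ⟨s, hs, hsi⟩ := cubic_nonreal
  obtain ⟨y, hy⟩ := IsAlgClosed.exists_pow_nat_eq (s ^ 2 - 4) (n := 2) (by norm_num)
  set x : ℂ := (s + y) / 2 with hx
  have h1 : x ^ 2 + 1 = s * x := by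
    rw [hx]
    linear_combination (1 / 4 : ℂ) * hy
  refine ⟨x, ?_, ?_⟩
  · have h2 : x ^ 6 + 11 * x ^ 5 + 39 * x ^ 4 + 59 * x ^ 3 + 39 * x ^ 2 + 11 * x + 1 =
        (x ^ 2 + 1) ^ 3 + 11 * x * (x ^ 2 + 1) ^ 2 + 36 * x ^ 2 * (x ^ 2 + 1) + 37 * x ^ 3 := by ring
    rw [h2, h1]
    linear_combination x ^ 3 * hs
  · intro hxi
    have hx0 : x ≠ 0 := by
      intro h
      rw [h] at h1
      norm_num at h1
    have hxr : x = (x.re : ℂ) := by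
      apply Complex.ext
      · simp
      · simpa using hxi
    have hs' : s = (((x.re ^ 2 + 1) / x.re : ℝ) : ℂ) := by
      have hr0 : (x.re : ℂ) ≠ 0 := by rw [← hxr]; exact hx0
      push_cast
      rw [eq_div_iff hr0, ← hxr]
      exact h1.symm
    apply hsi
    rw [hs']
    exact Complex.ofReal_im _

end Pool.Agent.Q287.Kos
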