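import Pool.Agent.Q287.Kos.JT

namespace Pool.Agent.Q287.Kos

open MvPolynomial

attribute [local instance] MvPolynomial.gradedAlgebra

/-- Coefficientwise sum. -/
def addL : List ℕ → List ℕ → List ℕ
  | [], m => m
  | a :: l, [] => a :: l
  | a :: l, b :: m => (a + b) :: addL l m

theorem addL_getD : ∀ (l m : List ℕ) (i : ℕ), (addL l m).getD i 0 = l.getD i 0 + m.getD i 0
  | [], m, i => by simp [addL]
  | a :: l, [], i => by simp [addL]
  | a :: l, b :: m, 0 => by simp [addL]
  | a :: l, b :: m, i + 1 => by
    have := addL_getD l m i
    simpa [addL] using this

theorem addL_sum : ∀ (l m : List ℕ), (addL l m).sum = l.sum + m.sum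
  | [], m => by simp [addL]
  | a :: l, [] => by simp [addL]
  | a :: l, b :: m => by
    have := addL_sum l m
    simp only [addL, List.sum_cons, this]
    omega

/-- The first vertex of the list in `w` whose star does not contain `w`. -/
def pick (w : ℕ) : List ℕ → Option ℕ
  | [] => none
  | v :: l => if decide (v < 18) && w.testBit v && !((w &&& star v) == w) then some v else pick w l

theorem pick_some {w : ℕ} : ∀ {l : List ℕ} {v : ℕ}, pick w l = some v → v < 18 ∧ w.testBit v = true
  | [], v, h => by simp [pick] at h
  | u :: l, v, h => by
    unfold pick at h
    by_cases hu : (decide (u < 18) && w.testBit u && !((w &&& star u) == w)) = true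
    · rw [if_pos hu] at h
      have h' := Option.some.inj h
      subst h'
      rw [Bool.and_eq_true, Bool.and_eq_true, decide_eq_true_eq] at hu
      exact hu.1
    · rw [if_neg hu] at h
      exact pick_some h

/-- The upper bound for the Hilbert function. -/
def ub : ℕ → ℕ → Option (List ℕ)
  | 0, _ => none
  | n + 1, w =>
    match pick w Dat.order with
    | none => if facetOK w then some [1] else none
    | some v =>
      match ub n (w &&& del v) with
      | none => none
      | some l =>
        match ub n (w &&& star v) with
        | none => none
        | some m => some (addL l (0 :: m))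

theorem ub_spec : ∀ (n w : ℕ) (l : List ℕ), ub n w = some l →
    Module.Finite ℚ (P18 ⧸ JT w) ∧ Module.finrank ℚ (P18 ⧸ JT w) ≤ l.sum ∧
      ∀ i, hilb (JT w) i ≤ l.getD i 0 := by
  intro n
  induction n with
  | zero => intro w l h; simp [ub] at h
  | succ n ih =>
    intro w l h
    unfold ub at h
    rcases hp : pick w Dat.order with _ | v
    · rw [hp] at h
      simp only at h
      by_cases hf : facetOK w = true
      · rw [if_pos hf] at h
        have h' := Option.some.inj h
        subst h'
        refine ⟨base_finite (facet_mem hf), ?_, ?_⟩
        · simpa using base_finrank (facet_mem hf)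
        · intro i
          rcases i with _ | i
          · simpa using base_hilb_zero (facet_mem hf)
          · rw [base_hilb (facet_mem hf)]; exact Nat.zero_le _
      · rw [if_neg hf] at h; simp at h
    · rw [hp] at h
      simp only at h
      obtain ⟨hv, hw⟩ := pick_some hp
      clear hp
      obtain ⟨v, rfl⟩ : ∃ x : Fin 18, x.1 = v := ⟨⟨v, hv⟩, rfl⟩
      rcases h1 : ub n (w &&& del v) with _ | l1
      · rw [h1] at h; simp at h
      · rw [h1] at h
        simp only at h
        rcases h2 : ub n (w &&& star v) with _ | l2
        · rw [h2] at h; simp at h
        · rw [h2] at h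
          simp only at h
          have h' := Option.some.inj h
          subst h'
          obtain ⟨a1, a2, a3⟩ := ih _ _ h1
          obtain ⟨b1, b2, b3⟩ := ih _ _ h2
          have hmul := star_mul w v
          have hdel := JT_del w v hw
          refine ⟨finite_step hmul hdel, ?_, ?_⟩
          · rw [addL_sum, List.sum_cons, zero_add]
            exact (Nat.le.intro (finrank_step hmul hdel)).trans (Nat.add_le_add a2 b2)
          · intro i
            rw [addL_getD]
            rcases i with _ | i
            · have := hilb_zero_step (isHomogeneous_X ℚ v) hdel (JT_hom w)
              have h3 := a3 0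
              have h4 : (0 :: l2).getD 0 0 = 0 := rfl
              omega
            · have := hilb_step (isHomogeneous_X ℚ v) hmul hdel (JT_hom w) i
              have h3 := a3 (i + 1)
              have h4 := b3 i
              rw [List.getD_cons_succ]
              omega

theorem ub_full : ub 20 262143 = some [1, 11, 39, 59, 39, 11, 1] := by decide

end Pool.Agent.Q287.Kos
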